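import Pool.Agent.Lib.MP_ae5b4e_an_A4.Modes

/-!
# MP_ae5b4e_an, POR (iii), STEP A, block A4 (existence): extension above the line

`ext_modes`: the maximum principle for the modes on a small circle about `g0` and the sum of the
Fourier series.
-/

noncomputable section

namespace Pool.Agent.MP_ae5b4e_an_A4

open Complex Set Filter Topology Metric
open Pool.Agent.MP_ae5b4e_an_MERO (fo St)

/-- the harmonic majorant of the rates on the circle of radius `r1` -/
def Hh (R0 α β μ B r1 : ℝ) (z : ℂ) : ℂ :=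
  ((R0 + B * r1 ^ 2 - μ * r1 / 2 : ℝ) : ℂ) + ((α : ℂ) - β * I) * z + ((μ / (2 * r1) : ℝ) : ℂ) * z ^ 2

theorem Hh_re (R0 α β μ B r1 : ℝ) (z : ℂ) : (Hh R0 α β μ B r1 z).re =
    R0 + B * r1 ^ 2 - μ * r1 / 2 + (α * z.re + β * z.im) + μ / (2 * r1) * (z.re ^ 2 - z.im ^ 2) := by
  unfold Hh
  have h1 : (z ^ 2).re = z.re ^ 2 - z.im ^ 2 := by
    rw [sq, mul_re]
    ring
  rw [add_re, add_re, ofReal_re, re_ofReal_mul, h1, mul_re]
  simp

/-- on the circle -/
theorem RT_le_Hh {R0 α β μ B r1 : ℝ} (hμ : 0 ≤ μ) (hr1 : 0 < r1) {g0 γ : ℂ}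
    (hγ : ‖γ - g0‖ = r1) : RT R0 α β μ B g0 γ ≤ (Hh R0 α β μ B r1 (γ - g0)).re := by
  rw [Hh_re]
  unfold RT
  obtain ⟨z, hz⟩ : ∃ z, z = γ - g0 := ⟨_, rfl⟩
  rw [← hz] at hγ ⊢
  have h1 : z.re ^ 2 + z.im ^ 2 = r1 ^ 2 := by
    rw [← hγ, ← Complex.normSq_eq_norm_sq, Complex.normSq_apply]
    ring
  have h2 : |z.im| ≤ r1 := by
    rw [← hγ]
    exact abs_im_le_norm z
  have h3 : z.im ^ 2 ≤ |z.im| * r1 := by
    rw [← sq_abs]
    nlinarith [abs_nonneg z.im]
  have h4 : μ / (2 * r1) * (z.re ^ 2 - z.im ^ 2) = μ * r1 / 2 - μ / r1 * z.im ^ 2 := by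
    have : z.re ^ 2 = r1 ^ 2 - z.im ^ 2 := by linarith
    rw [this]
    field_simp
    ring
  have h5 : μ / r1 * z.im ^ 2 ≤ μ * |z.im| := by
    calc μ / r1 * z.im ^ 2 ≤ μ / r1 * (|z.im| * r1) := by gcongr
      _ = μ * |z.im| := by field_simp
  rw [h4, hγ]
  linarith

/-- near the centre -/
theorem Hh_le {R0 α β μ B r1 ρ : ℝ} (hμ : 0 ≤ μ) (hr1 : 0 < r1) (h1 : B * r1 ≤ μ / 8)
    (h2 : (|α| + |β|) * ρ ≤ μ * r1 / 32) (h3 : ρ ≤ r1 / 4) {z : ℂ} (hz : ‖z‖ ≤ ρ) :
    (Hh R0 α β μ B r1 z).re ≤ R0 - μ * r1 / 4 := by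
  rw [Hh_re]
  have hz0 := norm_nonneg z
  have e1 : |z.re| ≤ ρ := (abs_re_le_norm z).trans hz
  have e2 : |z.im| ≤ ρ := (abs_im_le_norm z).trans hz
  have e3 : α * z.re ≤ |α| * ρ := by
    calc α * z.re ≤ |α * z.re| := le_abs_self _
      _ = |α| * |z.re| := abs_mul _ _
      _ ≤ |α| * ρ := by gcongr
  have e4 : β * z.im ≤ |β| * ρ := by
    calc β * z.im ≤ |β * z.im| := le_abs_self _
      _ = |β| * |z.im| := abs_mul _ _
      _ ≤ |β| * ρ := by gcongr
  have e5 : z.re ^ 2 - z.im ^ 2 ≤ ρ ^ 2 := by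
    have : z.re ^ 2 ≤ ρ ^ 2 := by
      rw [← sq_abs]
      gcongr
    nlinarith [sq_nonneg z.im]
  have e6 : ρ ^ 2 ≤ (r1 / 4) ^ 2 := by
    have : 0 ≤ ρ := hz0.trans hz
    gcongr
  have e7 : μ / (2 * r1) * (z.re ^ 2 - z.im ^ 2) ≤ μ * r1 / 32 := by
    calc μ / (2 * r1) * (z.re ^ 2 - z.im ^ 2) ≤ μ / (2 * r1) * (r1 / 4) ^ 2 := by
          gcongr
          exact e5.trans e6
      _ = μ * r1 / 32 := by
          field_simp
          ring
  have e8 : B * r1 ^ 2 ≤ μ * r1 / 8 := by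
    calc B * r1 ^ 2 = (B * r1) * r1 := by ring
      _ ≤ μ / 8 * r1 := by gcongr
      _ = μ * r1 / 8 := by ring
  have e9 : (|α| + |β|) * ρ = |α| * ρ + |β| * ρ := by ring
  have e10 : 0 ≤ μ * r1 := by positivity
  linarith

/-- maximum principle for one mode -/
theorem mode_max {a : ℂ → ℂ} {g0 : ℂ} {s r1 κ K R0 α β μ B : ℝ} (hr1 : 0 < r1) (hs : r1 < s)
    (hμ : 0 ≤ μ) (hK : 0 ≤ K) (hκ : 0 ≤ κ) (ha : DifferentiableOn ℂ a (ball g0 s))
    (hb : ∀ γ : ℂ, ‖γ - g0‖ = r1 → ‖a γ‖ ≤ κ * Real.exp (K * RT R0 α β μ B g0 γ)) {γ : ℂ}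
    (hγ : ‖γ - g0‖ ≤ r1) :
    ‖a γ‖ ≤ κ * Real.exp (K * (Hh R0 α β μ B r1 (γ - g0)).re) := by
  have hHd : Differentiable ℂ fun γ : ℂ => exp (-(K * Hh R0 α β μ B r1 (γ - g0))) := by
    unfold Hh
    fun_prop
  have hd : DiffContOnCl ℂ (fun γ => a γ * exp (-(K * Hh R0 α β μ B r1 (γ - g0))))
      (ball g0 r1) := by
    apply DifferentiableOn.diffContOnCl
    rw [closure_ball _ hr1.ne']
    exact (ha.mono (closedBall_subset_ball hs)).mul hHd.differentiableOn
  have hne : ∀ γ : ℂ, ‖exp (-((K : ℂ) * Hh R0 α β μ B r1 (γ - g0)))‖ =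
      Real.exp (-(K * (Hh R0 α β μ B r1 (γ - g0)).re)) := by
    intro γ
    rw [Complex.norm_exp, neg_re, re_ofReal_mul]
  have h1 := Complex.norm_le_of_forall_mem_frontier_norm_le isBounded_ball hd (C := κ) (by
    intro w hw
    rw [frontier_ball _ hr1.ne', mem_sphere, dist_eq_norm] at hw
    rw [norm_mul, hne]
    calc ‖a w‖ * Real.exp (-(K * (Hh R0 α β μ B r1 (w - g0)).re))
        ≤ κ * Real.exp (K * RT R0 α β μ B g0 w) *
          Real.exp (-(K * (Hh R0 α β μ B r1 (w - g0)).re)) := by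
          gcongr
          exact hb w hw
      _ = κ * Real.exp (K * (RT R0 α β μ B g0 w - (Hh R0 α β μ B r1 (w - g0)).re)) := by
          rw [mul_assoc, ← Real.exp_add]
          congr 2
          ring
      _ ≤ κ * 1 := by
          gcongr
          rw [Real.exp_le_one_iff]
          have := RT_le_Hh (R0 := R0) (α := α) (β := β) (B := B) hμ hr1 hw
          nlinarith
      _ = κ := mul_one _) (z := γ) (by
    rw [closure_ball _ hr1.ne', mem_closedBall, dist_eq_norm]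
    exact hγ)
  rw [norm_mul, hne] at h1
  calc ‖a γ‖ = ‖a γ‖ * Real.exp (-(K * (Hh R0 α β μ B r1 (γ - g0)).re)) *
        Real.exp (K * (Hh R0 α β μ B r1 (γ - g0)).re) := by
        rw [mul_assoc, ← Real.exp_add, neg_add_cancel, Real.exp_zero, mul_one]
    _ ≤ κ * Real.exp (K * (Hh R0 α β μ B r1 (γ - g0)).re) := by gcongr

private theorem geo_sum {q : ℝ} (h0 : 0 ≤ q) (h1 : q ≤ 1 / 3) :
    Summable (fun m : ℤ => q ^ m.natAbs) ∧ ∑' m : ℤ, q ^ m.natAbs ≤ 2 := by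
  have hq1 : q < 1 := by linarith
  have s1 : HasSum (fun n : ℕ => q ^ ((n : ℤ).natAbs)) ((1 - q)⁻¹) := by
    simpa using hasSum_geometric_of_lt_one h0 hq1
  have s2 : HasSum (fun n : ℕ => q ^ ((-((n : ℤ) + 1)).natAbs)) ((1 - q)⁻¹ * q) := by
    have e : ∀ n : ℕ, (-((n : ℤ) + 1)).natAbs = n + 1 := by
      intro n
      omega
    simp only [e, pow_succ]
    exact (hasSum_geometric_of_lt_one h0 hq1).mul_right q
  have s3 := HasSum.of_nat_of_neg_add_one (f := fun m : ℤ => q ^ m.natAbs) s1 s2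
  refine ⟨s3.summable, ?_⟩
  rw [s3.tsum_eq]
  have hp : 0 < 1 - q := by linarith
  have e : (1 - q)⁻¹ + (1 - q)⁻¹ * q = (1 + q) / (1 - q) := by
    field_simp
  rw [e, div_le_iff₀ hp]
  linarith

/-- the sum of the series with geometric bounds -/
theorem sum_modes {g0 : ℂ} {ρ u w κ q : ℝ} {a : ℤ → ℂ → ℂ} (hκ : 0 ≤ κ) (hq : 0 ≤ q)
    (hq1 : q ≤ 1 / 3) (ha : ∀ m, DifferentiableOn ℂ (a m) (ball g0 ρ))
    (hb : ∀ m : ℤ, ∀ γ ∈ ball g0 ρ, ∀ ζ : ℂ, u < ζ.im → ζ.im < w →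
      ‖a m γ * exp (2 * Real.pi * I * m * ζ)‖ ≤ κ * q ^ m.natAbs) :
    AnalyticOnNhd ℂ (fun p : ℂ × ℂ => ∑' m : ℤ, a m p.2 * exp (2 * Real.pi * I * m * p.1))
      {p | p.2 ∈ ball g0 ρ ∧ u < p.1.im ∧ p.1.im < w} ∧
    ∀ p ∈ {p : ℂ × ℂ | p.2 ∈ ball g0 ρ ∧ u < p.1.im ∧ p.1.im < w},
      ‖∑' m : ℤ, a m p.2 * exp (2 * Real.pi * I * m * p.1)‖ ≤ 2 * κ := by
  obtain ⟨hs, hs2⟩ := geo_sum hq hq1
  have hsum : Summable (fun m : ℤ => κ * q ^ m.natAbs) := hs.mul_left κ
  have hop : IsOpen {p : ℂ × ℂ | p.2 ∈ ball g0 ρ ∧ u < p.1.im ∧ p.1.im < w} := by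
    have h1 : IsOpen {p : ℂ × ℂ | p.2 ∈ ball g0 ρ} := isOpen_ball.preimage continuous_snd
    have h2 : IsOpen {p : ℂ × ℂ | u < p.1.im} :=
      isOpen_lt continuous_const (continuous_im.comp continuous_fst)
    have h3 : IsOpen {p : ℂ × ℂ | p.1.im < w} :=
      isOpen_lt (continuous_im.comp continuous_fst) continuous_const
    exact h1.inter (h2.inter h3)
  constructor
  · refine Pool.Agent.SCV.osgood _ hop _ ?_ ?_ ?_
    · refine continuousOn_tsum (u := fun m : ℤ => κ * q ^ m.natAbs) ?_ hsum ?_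
      · intro m
        refine ContinuousOn.mul ?_ (Continuous.continuousOn (by fun_prop))
        exact (ha m).continuousOn.comp continuous_snd.continuousOn fun p hp => hp.1
      · intro m p hp
        exact hb m p.2 hp.1 p.1 hp.2.1 hp.2.2
    · rintro p ⟨hp1, hp2, hp3⟩
      have hst : IsOpen {z : ℂ | u < z.im ∧ z.im < w} :=
        (isOpen_lt continuous_const continuous_im).inter (isOpen_lt continuous_im continuous_const)
      have h1 : DifferentiableOn ℂ
          (fun ζ : ℂ => ∑' m : ℤ, a m p.2 * exp (2 * Real.pi * I * m * ζ))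
          {z : ℂ | u < z.im ∧ z.im < w} := by
        refine differentiableOn_tsum_of_summable_norm (u := fun m : ℤ => κ * q ^ m.natAbs) hsum
          (fun m => Differentiable.differentiableOn (by fun_prop)) hst ?_
        intro m ζ hζ
        exact hb m p.2 hp1 ζ hζ.1 hζ.2
      exact h1.differentiableAt (hst.mem_nhds ⟨hp2, hp3⟩)
    · rintro p ⟨hp1, hp2, hp3⟩
      have h1 : DifferentiableOn ℂ
          (fun γ : ℂ => ∑' m : ℤ, a m γ * exp (2 * Real.pi * I * m * p.1)) (ball g0 ρ) := by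
        refine differentiableOn_tsum_of_summable_norm (u := fun m : ℤ => κ * q ^ m.natAbs) hsum
          (fun m => (ha m).mul_const _) isOpen_ball ?_
        intro m γ hγ
        exact hb m γ hγ p.1 hp2 hp3
      exact h1.differentiableAt (isOpen_ball.mem_nhds hp1)
  · rintro p ⟨hp1, hp2, hp3⟩
    have h2 : ∀ m : ℤ, ‖a m p.2 * exp (2 * Real.pi * I * m * p.1)‖ ≤ κ * q ^ m.natAbs :=
      fun m => hb m p.2 hp1 p.1 hp2 hp3
    calc ‖∑' m : ℤ, a m p.2 * exp (2 * Real.pi * I * m * p.1)‖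
        ≤ ∑' m : ℤ, κ * q ^ m.natAbs := tsum_of_norm_bounded hsum.hasSum h2
      _ = κ * ∑' m : ℤ, q ^ m.natAbs := tsum_mul_left
      _ ≤ κ * 2 := by gcongr
      _ = 2 * κ := mul_comm _ _

/-- EXTENSION ABOVE THE LINE.  The modes `k ≥ 1` of `F` are bounded on a small circle about `g0` by
the heights of the two sides; the kink `- μ |Im z|` makes them exponentially small at `-R0`. -/
theorem ext_modes {R0 α β μ B y1 r c0 : ℝ} {g0 : ℂ} (hμ : 0 < μ) (hB : 0 ≤ B) (hr : 0 < r)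
    (hy : y1 < -R0) (hc0 : 0 < c0) :
    ∃ ρ c : ℝ, 0 < ρ ∧ ρ ≤ r ∧ 0 < c ∧ c ≤ c0 ∧ ∀ δ : ℝ, 0 < δ → ∃ N0 : ℝ, 0 < N0 ∧
      ∀ N : ℝ, N0 ≤ N → ∀ (κ : ℝ) (F : ℂ × ℂ → ℂ),
      Per N y1 κ (fun γ => -RT R0 α β μ B g0 γ - c) g0 r F →
      ∃ F' : ℂ × ℂ → ℂ,
        AnalyticOnNhd ℂ F' {p | p.2 ∈ ball g0 ρ ∧ N * (y1 + δ) < p.1.im ∧
          p.1.im < N * (-R0 + c)} ∧
        (∀ p ∈ SN N y1 (fun γ => -RT R0 α β μ B g0 γ - c) g0 r, p.2 ∈ ball g0 ρ → F' p = F p) ∧
        (∀ p : ℂ × ℂ, p.2 ∈ ball g0 ρ → N * (y1 + δ) < p.1.im → p.1.im < N * (-R0 + c) →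
          ‖F' p‖ ≤ 2 * κ) := by
  obtain ⟨A, hA⟩ : ∃ A, A = |α| + |β| := ⟨_, rfl⟩
  have hA0 : 0 ≤ A := by
    rw [hA]
    positivity
  obtain ⟨b, hb⟩ : ∃ b, b = -R0 - y1 := ⟨_, rfl⟩
  have hb0 : 0 < b := by
    rw [hb]
    linarith
  -- the radii
  obtain ⟨s, hs0, hsr, hs1, hsA, hsB, hsμ⟩ : ∃ s : ℝ, 0 < s ∧ s ≤ r ∧ s ≤ 1 ∧
      (A + 1) * s ≤ b / 8 ∧ (B + 1) * s ≤ b / 8 ∧ (B + 1) * s ≤ μ / 8 := by
    refine ⟨min r (min 1 (min (b / 8 / (A + 1)) (min (b / 8 / (B + 1)) (μ / 8 / (B + 1))))),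
      ?_, min_le_left _ _, (min_le_right _ _).trans (min_le_left _ _), ?_, ?_, ?_⟩
    · refine lt_min hr (lt_min one_pos (lt_min (by positivity) (lt_min (by positivity)
        (by positivity))))
    · have h1 : min r (min 1 (min (b / 8 / (A + 1)) (min (b / 8 / (B + 1)) (μ / 8 / (B + 1))))) ≤
          b / 8 / (A + 1) :=
        (min_le_right _ _).trans ((min_le_right _ _).trans (min_le_left _ _))
      rw [le_div_iff₀ (by positivity)] at h1
      linarith
    · have h1 : min r (min 1 (min (b / 8 / (A + 1)) (min (b / 8 / (B + 1)) (μ / 8 / (B + 1))))) ≤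
          b / 8 / (B + 1) :=
        (min_le_right _ _).trans ((min_le_right _ _).trans ((min_le_right _ _).trans
          (min_le_left _ _)))
      rw [le_div_iff₀ (by positivity)] at h1
      linarith
    · have h1 : min r (min 1 (min (b / 8 / (A + 1)) (min (b / 8 / (B + 1)) (μ / 8 / (B + 1))))) ≤
          μ / 8 / (B + 1) :=
        (min_le_right _ _).trans ((min_le_right _ _).trans ((min_le_right _ _).trans
          (min_le_right _ _)))
      rw [le_div_iff₀ (by positivity)] at h1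
      linarith
  obtain ⟨r1, hr1⟩ : ∃ r1, r1 = s / 2 := ⟨_, rfl⟩
  have hr10 : 0 < r1 := by
    rw [hr1]
    positivity
  have hr1s : r1 < s := by
    rw [hr1]
    linarith
  obtain ⟨c, hc, hcc0, hcb, hcμ⟩ : ∃ c : ℝ, 0 < c ∧ c ≤ c0 ∧ c ≤ b / 8 ∧ c ≤ μ * r1 / 12 := by
    refine ⟨min c0 (min (b / 8) (μ * r1 / 12)), lt_min hc0 (lt_min (by positivity)
      (by positivity)), min_le_left _ _, (min_le_right _ _).trans (min_le_left _ _),
      (min_le_right _ _).trans (min_le_right _ _)⟩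
  obtain ⟨ρ, hρ, hρ1, hρ2⟩ : ∃ ρ : ℝ, 0 < ρ ∧ ρ ≤ r1 / 4 ∧ A * ρ ≤ μ * r1 / 32 := by
    refine ⟨min (r1 / 4) (μ * r1 / 32 / (A + 1)), lt_min (by positivity) (by positivity),
      min_le_left _ _, ?_⟩
    have h1 : min (r1 / 4) (μ * r1 / 32 / (A + 1)) ≤ μ * r1 / 32 / (A + 1) := min_le_right _ _
    have h2 : 0 ≤ min (r1 / 4) (μ * r1 / 32 / (A + 1)) := le_min (by positivity) (by positivity)
    rw [le_div_iff₀ (by positivity)] at h1
    nlinarith
  have hBr1 : B * r1 ≤ μ / 8 := by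
    rw [hr1]
    nlinarith
  refine ⟨ρ, c, hρ, by linarith, hc, hcc0, fun δ hδ => ?_⟩
  have hmin : 0 < min c δ := lt_min hc hδ
  refine ⟨1 / min c δ, by positivity, fun N hN κ F hF => ?_⟩
  have hN0 : 0 < N := lt_of_lt_of_le (by positivity) hN
  have hN1 : 1 ≤ N * min c δ := by
    rw [div_le_iff₀ hmin] at hN
    exact hN
  -- the tops
  have hT : ∀ γ ∈ ball g0 s, y1 + b / 4 < -RT R0 α β μ B g0 γ - c := by
    intro γ hγ
    rw [mem_ball, dist_eq_norm] at hγ
    unfold RT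
    have hz0 := norm_nonneg (γ - g0)
    have e1 : |(γ - g0).re| ≤ s := (abs_re_le_norm _).trans hγ.le
    have e2 : |(γ - g0).im| ≤ s := (abs_im_le_norm _).trans hγ.le
    have e3 : α * (γ - g0).re ≤ |α| * s := by
      calc α * (γ - g0).re ≤ |α * (γ - g0).re| := le_abs_self _
        _ = |α| * |(γ - g0).re| := abs_mul _ _
        _ ≤ |α| * s := by gcongr
    have e4 : β * (γ - g0).im ≤ |β| * s := by
      calc β * (γ - g0).im ≤ |β * (γ - g0).im| := le_abs_self _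
        _ = |β| * |(γ - g0).im| := abs_mul _ _
        _ ≤ |β| * s := by gcongr
    have e5 : B * ‖γ - g0‖ ^ 2 ≤ B * s := by
      gcongr
      nlinarith
    have e6 : 0 ≤ μ * |(γ - g0).im| := by positivity
    have e7 : |α| * s + |β| * s = A * s := by
      rw [hA]
      ring
    have e8 : A * s ≤ b / 8 := by nlinarith
    have e9 : B * s ≤ b / 8 := by nlinarith
    linarith
  set Y : ℝ := N * (y1 + b / 4) with hY
  have hYm : ∀ γ ∈ ball g0 s, Y ∈ Ioo (N * y1) (N * (-RT R0 α β μ B g0 γ - c)) := by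
    intro γ hγ
    constructor
    · rw [hY]
      exact mul_lt_mul_of_pos_left (by linarith) hN0
    · rw [hY]
      exact mul_lt_mul_of_pos_left (hT γ hγ) hN0
  have hκ : 0 ≤ κ := by
    have h1 : ((Y * I : ℂ), g0) ∈ SN N y1 (fun γ => -RT R0 α β μ B g0 γ - c) g0 r := by
      have h2 := hYm g0 (mem_ball_self hs0)
      refine ⟨mem_ball_self hr, ?_, ?_⟩
      · simpa using h2.1
      · simpa using h2.2
    exact (norm_nonneg _).trans (hF.bd _ h1)
  set a : ℤ → ℂ → ℂ := fun m γ => am F Y m γ with ha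
  have had : ∀ m, DifferentiableOn ℂ (a m) (ball g0 s) := fun m => hF.diff hsr hYm m
  -- bounds of the coefficients
  have hpos : ∀ (m : ℤ) (γ : ℂ), γ ∈ ball g0 s → ‖a m γ‖ ≤ κ * Real.exp (2 * Real.pi * m *
      (N * y1)) := by
    intro m γ hγ
    have h1 := hYm γ hγ
    exact hF.le (ball_subset_ball hsr hγ) h1 ⟨le_rfl, (h1.1.trans h1.2).le⟩ m
  have hneg : ∀ (m : ℤ) (γ : ℂ), m ≤ 0 → γ ∈ ball g0 ρ → ‖a m γ‖ ≤
      κ * Real.exp (-(2 * Real.pi * m * (N * (R0 - 2 * c)))) := by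
    intro m γ hm hγ
    have hm' : (m : ℝ) ≤ 0 := by exact_mod_cast hm
    have hK : 0 ≤ -(2 * Real.pi * m * N) := by
      have h1 : 0 ≤ Real.pi * N := by positivity
      nlinarith
    rw [mem_ball, dist_eq_norm] at hγ
    have h1 := mode_max (a := a m) (g0 := g0) (s := s) (r1 := r1) (κ := κ)
      (K := -(2 * Real.pi * m * N)) (R0 := R0 + c) (α := α) (β := β) (μ := μ) (B := B) hr10 hr1s
      hμ.le hK hκ (had m) (by
        intro w hw
        have hws : w ∈ ball g0 s := by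
          rw [mem_ball, dist_eq_norm, hw]
          exact hr1s
        have h2 := hYm w hws
        have h3 := hF.le (ball_subset_ball hsr hws) h2
          (y' := N * (-RT R0 α β μ B g0 w - c)) ⟨(h2.1.trans h2.2).le, le_rfl⟩ m
        refine h3.trans (le_of_eq ?_)
        congr 2
        unfold RT
        ring) (γ := γ) (by linarith)
    refine h1.trans ?_
    have h2 := Hh_le (R0 := R0 + c) (α := α) (β := β) (B := B) (ρ := ρ) hμ.le hr10 hBr1
      (by rw [← hA]; exact hρ2) hρ1 hγ.le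
    have h3 : (Hh (R0 + c) α β μ B r1 (γ - g0)).re ≤ R0 - 2 * c := by linarith
    gcongr
    calc -(2 * Real.pi * m * N) * (Hh (R0 + c) α β μ B r1 (γ - g0)).re
        ≤ -(2 * Real.pi * m * N) * (R0 - 2 * c) := by gcongr
      _ = -(2 * Real.pi * m * (N * (R0 - 2 * c))) := by ring
  -- the sum
  set q : ℝ := Real.exp (-(2 * Real.pi * (N * min c δ))) with hq
  have hq0 : 0 ≤ q := (Real.exp_pos _).le
  have hq1 : q ≤ 1 / 3 := by
    have hpi := Real.pi_gt_three
    have h1 : q ≤ Real.exp (-2) := by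
      rw [hq]
      apply Real.exp_le_exp.2
      nlinarith
    have h2 : Real.exp (-2) ≤ 1 / 3 := by
      rw [Real.exp_neg, one_div]
      apply inv_anti₀ (by norm_num)
      have := Real.add_one_le_exp (2:ℝ)
      linarith
    exact h1.trans h2
  have hterm : ∀ m : ℤ, ∀ γ ∈ ball g0 ρ, ∀ ζ : ℂ, N * (y1 + δ) < ζ.im → ζ.im < N * (-R0 + c) →
      ‖a m γ * exp (2 * Real.pi * I * m * ζ)‖ ≤ κ * q ^ m.natAbs := by
    intro m γ hγ ζ h1 h2
    have hγs : γ ∈ ball g0 s := ball_subset_ball (by linarith) hγ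
    rw [norm_mul, norm_e, hq, ← Real.exp_nat_mul]
    rcases le_total 0 m with hm | hm
    · have hm' : (0:ℝ) ≤ m := by exact_mod_cast hm
      have h3 : ((m.natAbs : ℕ) : ℝ) = m := by
        rw [Nat.cast_natAbs, Int.cast_abs]
        exact abs_of_nonneg hm'
      calc ‖a m γ‖ * Real.exp (-(2 * Real.pi * m * ζ.im))
          ≤ κ * Real.exp (2 * Real.pi * m * (N * y1)) * Real.exp (-(2 * Real.pi * m * ζ.im)) := by
            gcongr
            exact hpos m γ hγs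
        _ = κ * Real.exp (2 * Real.pi * m * (N * y1 - ζ.im)) := by
            rw [mul_assoc, ← Real.exp_add]
            congr 2
            ring
        _ ≤ κ * Real.exp (m.natAbs * -(2 * Real.pi * (N * min c δ))) := by
            rw [h3]
            refine mul_le_mul_of_nonneg_left (Real.exp_le_exp.2 ?_) hκ
            have h4 : N * y1 - ζ.im ≤ -(N * min c δ) := by
              have : N * min c δ ≤ N * δ := by
                gcongr
                exact min_le_right _ _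
              linarith
            calc 2 * Real.pi * m * (N * y1 - ζ.im) ≤ 2 * Real.pi * m * (-(N * min c δ)) := by
                  gcongr
              _ = m * -(2 * Real.pi * (N * min c δ)) := by ring
    · have hm' : (m : ℝ) ≤ 0 := by exact_mod_cast hm
      have h3 : ((m.natAbs : ℕ) : ℝ) = -m := by
        rw [Nat.cast_natAbs, Int.cast_abs]
        exact abs_of_nonpos hm'
      calc ‖a m γ‖ * Real.exp (-(2 * Real.pi * m * ζ.im))
          ≤ κ * Real.exp (-(2 * Real.pi * m * (N * (R0 - 2 * c)))) *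
            Real.exp (-(2 * Real.pi * m * ζ.im)) := by
            gcongr
            exact hneg m γ hm hγ
        _ = κ * Real.exp (2 * Real.pi * (-m) * (N * (R0 - 2 * c) + ζ.im)) := by
            rw [mul_assoc, ← Real.exp_add]
            congr 2
            ring
        _ ≤ κ * Real.exp (m.natAbs * -(2 * Real.pi * (N * min c δ))) := by
            rw [h3]
            refine mul_le_mul_of_nonneg_left (Real.exp_le_exp.2 ?_) hκ
            have h4 : N * (R0 - 2 * c) + ζ.im ≤ -(N * min c δ) := by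
              have : N * min c δ ≤ N * c := by
                gcongr
                exact min_le_left _ _
              nlinarith
            have h5 : 0 ≤ 2 * Real.pi * (-(m:ℝ)) := by
              have := Real.pi_pos
              have h6 : (0:ℝ) ≤ -m := by linarith
              positivity
            calc 2 * Real.pi * (-(m:ℝ)) * (N * (R0 - 2 * c) + ζ.im)
                ≤ 2 * Real.pi * (-(m:ℝ)) * (-(N * min c δ)) := by gcongr
              _ = -(m:ℝ) * -(2 * Real.pi * (N * min c δ)) := by ring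
  obtain ⟨g1, g2⟩ := sum_modes (g0 := g0) (ρ := ρ) (a := a) hκ hq0 hq1
    (fun m => (had m).mono (ball_subset_ball (by linarith))) hterm
  refine ⟨_, g1, ?_, fun p h1 h2 h3 => g2 p ⟨h1, h2, h3⟩⟩
  rintro p ⟨hp1, hp2, hp3⟩ hp4
  have hγs : p.2 ∈ ball g0 s := ball_subset_ball (by linarith) hp4
  have h1 := hF.slice hp1
  have h2 := Pool.Agent.MP_ae5b4e_an_MERO.hasSum_fo h1.1 h1.2 (t := p.1) ⟨hp2, hp3⟩
    (y := Y) (hYm p.2 hγs)
  exact h2.tsum_eq

end Pool.Agent.MP_ae5b4e_an_A4
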