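import Pool.Agent.Lib.MP_ae5b4e_an_A1.Coord
import Pool.Agent.Lib.MP_ae5b4e_an_A1.Pe
import Pool.Agent.Lib.MP_ae5b4e_an_A1.Box

/-!
# MP_ae5b4e_an, POR (iii), STEP A, block A4 (existence): one long box

Exact coordinates of the labels in ONE exact family over a long stretch: the periodic deviation is
defined below the higher one of the two tops at the ends of the stretch.
-/

noncomputable section

namespace Pool.Agent.MP_ae5b4e_an_A4

open Complex Set Filter Topology Metric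
open Pool.Agent.MP_ae5b4e_an_A1

variable {U : Ultrafilter ℕ} {ε : ℕ → ℝ} {M Ω : Set (ℂ × ℂ)} {g : ℂ × ℂ → ℂ × ℂ}
  {gn : ℕ → ℂ × ℂ → ℂ × ℂ} {z : ℂ × ℂ → ℂ × ℂ}

theorem Ex_mono {O O' : Set (ℂ × ℂ)} {W : ℕ → ℂ × ℂ → ℂ × ℂ} (hW : Ex U ε gn O z W)
    (h : O' ⊆ O) : Ex U ε gn O' z W :=
  ⟨fun K hK => hW.an K (hK.trans h), fun K hK => hW.eq K (hK.trans h),
    fun K hK => hW.conv K (hK.trans h)⟩

/-- a function with `D (tr e q) = D q` on a horizontal segment, down -/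
theorem chain_nat {e l u : ℝ} (he : 0 < e) {D : ℂ × ℂ → ℂ × ℂ} {p : ℂ × ℂ}
    (hper : ∀ q : ℂ × ℂ, l ≤ q.1.re → q.1.re ≤ u → q.1.im = p.1.im → q.2 = p.2 →
      D (tr e q) = D q) (hu : p.1.re ≤ u) (j : ℕ) (hl : l ≤ p.1.re - j * e) :
    D (tr (-((j * e : ℝ) : ℂ)) p) = D p := by
  induction j with
  | zero => simp [tr_zero]
  | succ j ih =>
    have h1 : l ≤ p.1.re - j * e := by
      push_cast at hl
      linarith
    rw [← ih h1]
    have h2 := hper (tr (-(((j + 1 : ℕ) * e : ℝ) : ℂ)) p) (by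
      simp only [tr_fst, add_re, neg_re, ofReal_re]
      linarith) (by
      have : 0 ≤ ((j + 1 : ℕ) : ℝ) * e := by positivity
      simp only [tr_fst, add_re, neg_re, ofReal_re]
      linarith) (by simp) (by simp)
    rw [← h2, tr_tr]
    congr 2
    push_cast
    ring

/-- up -/
theorem chain_nat' {e l u : ℝ} (he : 0 < e) {D : ℂ × ℂ → ℂ × ℂ} {p : ℂ × ℂ}
    (hper : ∀ q : ℂ × ℂ, l ≤ q.1.re → q.1.re ≤ u → q.1.im = p.1.im → q.2 = p.2 →
      D (tr e q) = D q) (hl : l ≤ p.1.re) (j : ℕ) (hu : p.1.re + j * e ≤ u) :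
    D (tr ((j * e : ℝ) : ℂ) p) = D p := by
  induction j with
  | zero => simp [tr_zero]
  | succ j ih =>
    have h1 : p.1.re + j * e ≤ u := by
      push_cast at hu
      linarith
    rw [← ih h1]
    have h2 := hper (tr ((j * e : ℝ) : ℂ) p) (by
      have : 0 ≤ (j : ℝ) * e := by positivity
      simp only [tr_fst, add_re, ofReal_re]
      linarith) (by simpa using h1) (by simp) (by simp)
    rw [← h2, tr_tr]
    congr 2
    push_cast
    ring

/-- in both directions -/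
theorem chain_eq {e l u : ℝ} (he : 0 < e) {D : ℂ × ℂ → ℂ × ℂ} {p : ℂ × ℂ}
    (hper : ∀ q : ℂ × ℂ, l ≤ q.1.re → q.1.re ≤ u → q.1.im = p.1.im → q.2 = p.2 →
      D (tr e q) = D q) (hl : l ≤ p.1.re) (hu : p.1.re ≤ u) (k : ℤ)
    (hl' : l ≤ p.1.re - k * e) (hu' : p.1.re - k * e ≤ u) :
    D (tr (-((k * e : ℝ) : ℂ)) p) = D p := by
  rcases Int.le_total 0 k with hk | hk
  · obtain ⟨j, rfl⟩ := Int.eq_ofNat_of_zero_le hk
    have := chain_nat he hper hu j (by simpa using hl')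
    simpa using this
  · obtain ⟨j, hj⟩ := Int.eq_ofNat_of_zero_le (show 0 ≤ -k by omega)
    have hk' : k = -(j : ℤ) := by omega
    subst hk'
    have := chain_nat' he hper hl j (by
      push_cast at hu'
      linarith)
    push_cast at this ⊢
    rw [neg_mul, neg_neg]
    exact this

/-- the periodic extension from `Re = a` is the function itself on a long stretch -/
theorem pe_long {e l u a : ℝ} (he : 0 < e) {D : ℂ × ℂ → ℂ × ℂ} {p : ℂ × ℂ}
    (hper : ∀ q : ℂ × ℂ, l ≤ q.1.re → q.1.re ≤ u → q.1.im = p.1.im → q.2 = p.2 →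
      D (tr e q) = D q) (hl : l ≤ p.1.re) (hu : p.1.re ≤ u) (ha : l ≤ a - e / 2)
    (ha' : a + e / 2 ≤ u) : pe e a D p = D p := by
  have h1 := pe_red he a p.1.re
  rw [abs_le] at h1
  have h2 := chain_eq he hper hl hu (round ((p.1.re - a) / e)) (by linarith) (by linarith)
  unfold pe
  rw [← h2]

/-- **ONE LONG BOX.** -/
theorem exists_long (hV : VF U ε M g gn) (hz : Fw M g Ω z) {OL : Set (ℂ × ℂ)} (hOL : IsOpen OL)
    {W : ℕ → ℂ × ℂ → ℂ × ℂ} (hW : Ex U ε gn OL z W) {R : Set (ℂ × ℂ)} (hR : IsOpen R)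
    (hRΩ : R ⊆ Ω) {Z : ℕ → ℂ × ℂ → ℂ × ℂ} (hZ : Ex U ε gn R z Z)
    {a1 a2 y1 r : ℝ} {g0 : ℂ} {T1 T2 : ℂ → ℝ} (ha : a1 < a2)
    (hT1 : ContinuousOn T1 (closedBall g0 r)) (hT2 : ContinuousOn T2 (closedBall g0 r))
    (hs1 : Sg a1 y1 T1 g0 r ⊆ R ∩ OL) (hs2 : Sg a2 y1 T2 g0 r ⊆ R ∩ OL)
    (hh : ∀ p : ℂ × ℂ, p.2 ∈ closedBall g0 r → a1 ≤ p.1.re → p.1.re ≤ a2 → y1 ≤ p.1.im →
      p.1.im ≤ T1 p.2 → p.1.im ≤ T2 p.2 → p ∈ R ∩ OL) {δ : ℝ} (hδ : 0 < δ) :
    ∀ᶠ n in (U : Filter ℕ), ∃ D : ℂ × ℂ → ℂ × ℂ,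
      AnalyticOnNhd ℂ D (Str y1 (fun γ => max (T1 γ) (T2 γ)) g0 r) ∧
      (∀ p, D (tr (ε n) p) = D p) ∧
      (∀ p ∈ Str y1 (fun γ => max (T1 γ) (T2 γ)) g0 r, ‖D p‖ ≤ δ) ∧
      ∀ p ∈ Str y1 (fun γ => min (T1 γ) (T2 γ)) g0 r, a1 ≤ p.1.re → p.1.re ≤ a2 →
        W n p = Z n (p + D p) := by
  have hO : IsOpen (R ∩ OL) := hR.inter hOL
  have hOΩ : R ∩ OL ⊆ Ω := inter_subset_left.trans hRΩ
  obtain ⟨F, hF, hFW⟩ := coord hV hz hO hOΩ (Ex_mono hZ inter_subset_left)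
    (Ex_mono hW inter_subset_right)
  obtain ⟨w1, hw1, hd1⟩ := Cr.dev hV.ε_pos hV.ε_lim hO hF hT1 hs1
  obtain ⟨w2, hw2, hd2⟩ := Cr.dev hV.ε_pos hV.ε_lim hO hF hT2 hs2
  -- the compact region between the ends
  have hHc : IsCompact {p : ℂ × ℂ | p.2 ∈ closedBall g0 r ∧ a1 ≤ p.1.re ∧ p.1.re ≤ a2 ∧
      y1 ≤ p.1.im ∧ p.1.im ≤ T1 p.2 ∧ p.1.im ≤ T2 p.2} := by
    obtain ⟨B, hB⟩ := (isCompact_closedBall g0 r).exists_bound_of_continuousOn hT1
    have hC : IsCompact ((Icc a1 a2 ×ℂ Icc y1 B) ×ˢ closedBall g0 r) :=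
      (isCompact_Icc.reProdIm isCompact_Icc).prod (isCompact_closedBall g0 r)
    have hc1 : ContinuousOn (fun p : ℂ × ℂ => T1 p.2 - p.1.im)
        ((Icc a1 a2 ×ℂ Icc y1 B) ×ˢ closedBall g0 r) :=
      (hT1.comp continuous_snd.continuousOn fun p hp => hp.2).sub
        (continuous_im.comp continuous_fst).continuousOn
    have hc2 : ContinuousOn (fun p : ℂ × ℂ => T2 p.2 - p.1.im)
        ((Icc a1 a2 ×ℂ Icc y1 B) ×ˢ closedBall g0 r) :=
      (hT2.comp continuous_snd.continuousOn fun p hp => hp.2).sub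
        (continuous_im.comp continuous_fst).continuousOn
    have k1 := (hc1.preimage_isClosed_of_isClosed hC.isClosed (isClosed_Ici (a := (0:ℝ))))
    have k2 := (hc2.preimage_isClosed_of_isClosed hC.isClosed (isClosed_Ici (a := (0:ℝ))))
    refine hC.of_isClosed_subset ?_ ?_
    · convert k1.inter k2 using 1
      ext p
      simp only [mem_ofPred_eq, mem_inter_iff, mem_prod, mem_preimage, mem_Ici, sub_nonneg,
        mem_reProdIm, mem_Icc]
      constructor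
      · rintro ⟨h1, h2, h3, h4, h5, h6⟩
        have h7 : p.1.im ≤ B := h5.trans ((le_abs_self _).trans (hB _ h1))
        exact ⟨⟨⟨⟨⟨h2, h3⟩, h4, h7⟩, h1⟩, h5⟩, ⟨⟨⟨h2, h3⟩, h4, h7⟩, h1⟩, h6⟩
      · rintro ⟨⟨⟨⟨⟨h2, h3⟩, h4, h7⟩, h1⟩, h5⟩, ⟨⟨⟨-, -⟩, -, -⟩, -⟩, h6⟩
        exact ⟨h1, h2, h3, h4, h5, h6⟩
    · rintro p ⟨h1, h2, h3, h4, h5, h6⟩
      have h7 : p.1.im ≤ B := h5.trans ((le_abs_self _).trans (hB _ h1))
      exact ⟨⟨⟨h2, h3⟩, h4, h7⟩, h1⟩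
  obtain ⟨w, hw, hwO⟩ := hHc.exists_cthickening_subset_open hO
    (fun p hp => hh p hp.1 hp.2.1 hp.2.2.1 hp.2.2.2.1 hp.2.2.2.2.1 hp.2.2.2.2.2)
  set H : Set (ℂ × ℂ) := {p : ℂ × ℂ | p.2 ∈ closedBall g0 r ∧ a1 ≤ p.1.re ∧ p.1.re ≤ a2 ∧
      y1 ≤ p.1.im ∧ p.1.im ≤ T1 p.2 ∧ p.1.im ≤ T2 p.2} with hH
  have hcont1 : ContinuousOn (fun p : ℂ × ℂ => T1 p.2 - p.1.im) {p : ℂ × ℂ | p.2 ∈ ball g0 r} :=
    (hT1.comp continuous_snd.continuousOn fun p hp => ball_subset_closedBall hp).sub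
      (continuous_im.comp continuous_fst).continuousOn
  have hcont2 : ContinuousOn (fun p : ℂ × ℂ => T2 p.2 - p.1.im) {p : ℂ × ℂ | p.2 ∈ ball g0 r} :=
    (hT2.comp continuous_snd.continuousOn fun p hp => ball_subset_closedBall hp).sub
      (continuous_im.comp continuous_fst).continuousOn
  have hball : IsOpen {p : ℂ × ℂ | p.2 ∈ ball g0 r} := isOpen_ball.preimage continuous_snd
  have hlow1 : ∀ p : ℂ × ℂ, p.2 ∈ ball g0 r → p.1.im < T1 p.2 →
      ∀ᶠ q : ℂ × ℂ in 𝓝 p, q.1.im < T1 q.2 := by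
    intro p hp h1
    have h2 : ContinuousAt (fun p : ℂ × ℂ => T1 p.2 - p.1.im) p :=
      hcont1.continuousAt (hball.mem_nhds hp)
    filter_upwards [h2.eventually (lt_mem_nhds (show 0 < T1 p.2 - p.1.im by linarith))] with q hq
    linarith
  have hlow2 : ∀ p : ℂ × ℂ, p.2 ∈ ball g0 r → p.1.im < T2 p.2 →
      ∀ᶠ q : ℂ × ℂ in 𝓝 p, q.1.im < T2 q.2 := by
    intro p hp h1
    have h2 : ContinuousAt (fun p : ℂ × ℂ => T2 p.2 - p.1.im) p :=
      hcont2.continuousAt (hball.mem_nhds hp)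
    filter_upwards [h2.eventually (lt_mem_nhds (show 0 < T2 p.2 - p.1.im by linarith))] with q hq
    linarith
  filter_upwards [hd1 δ hδ, hd2 δ hδ, hF.eq _ hwO hHc.cthickening, hFW _ hwO hHc.cthickening,
    hV.ε_lim.eventually (gt_mem_nhds hw),
    hV.ε_lim.eventually (gt_mem_nhds (show 0 < a2 - a1 by linarith))] with n h1 h2 h3 h4 h5 h6
  have he := hV.ε_pos n
  obtain ⟨D0, hD0⟩ : ∃ D0 : ℂ × ℂ → ℂ × ℂ, D0 = fun p => F n p - p := ⟨_, rfl⟩
  rw [← hD0] at h1 h2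
  obtain ⟨h1a, h1b, -⟩ := h1
  obtain ⟨h2a, h2b, -⟩ := h2
  -- `D0` is periodic along the segments
  have hper : ∀ p : ℂ × ℂ, p.2 ∈ ball g0 r → y1 < p.1.im → p.1.im < T1 p.2 → p.1.im < T2 p.2 →
      ∀ q : ℂ × ℂ, a1 - ε n / 2 ≤ q.1.re → q.1.re ≤ a2 + ε n / 2 → q.1.im = p.1.im → q.2 = p.2 →
      D0 (tr (ε n) q) = D0 q := by
    intro p hp e1 e2 e3 q e4 e5 e6 e7
    have hq : q ∈ cthickening w H := by
      have hm : ((⟨max a1 (min a2 q.1.re), q.1.im⟩ : ℂ), q.2) ∈ H := by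
        refine ⟨by rw [e7]; exact ball_subset_closedBall hp, le_max_left _ _,
          max_le ha.le (min_le_left _ _), ?_, ?_, ?_⟩
        · show y1 ≤ q.1.im
          rw [e6]
          exact e1.le
        · show q.1.im ≤ T1 q.2
          rw [e6, e7]
          exact e2.le
        · show q.1.im ≤ T2 q.2
          rw [e6, e7]
          exact e3.le
      refine mem_cthickening_of_dist_le q _ w H hm ?_
      rw [Prod.dist_eq, dist_self, max_eq_left dist_nonneg, dist_eq_norm]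
      have e8 : q.1 - (⟨max a1 (min a2 q.1.re), q.1.im⟩ : ℂ) =
          ((q.1.re - max a1 (min a2 q.1.re) : ℝ) : ℂ) := by
        apply Complex.ext <;> simp
      rw [e8, Complex.norm_real, Real.norm_eq_abs]
      rcases le_total q.1.re a1 with h7 | h7
      · rw [min_eq_right (h7.trans ha.le), max_eq_left h7, abs_le]
        constructor <;> linarith
      · rcases le_total q.1.re a2 with h8 | h8
        · rw [min_eq_right h8, max_eq_right h7, sub_self, abs_zero]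
          exact hw.le
        · rw [min_eq_left h8, max_eq_right ha.le, abs_le]
          constructor <;> linarith
    rw [hD0]
    beta_reduce
    rw [h3 q hq, tr_sub]
  -- both extensions are equal to `D0` between the ends
  have heq1 : ∀ p : ℂ × ℂ, p.2 ∈ ball g0 r → y1 < p.1.im → p.1.im < T1 p.2 → p.1.im < T2 p.2 →
      a1 ≤ p.1.re → p.1.re ≤ a2 → pe (ε n) a1 D0 p = D0 p ∧ pe (ε n) a2 D0 p = D0 p := by
    intro p hp e1 e2 e3 e4 e5
    exact ⟨pe_long he (hper p hp e1 e2 e3) (by linarith) (by linarith) le_rfl (by linarith),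
      pe_long he (hper p hp e1 e2 e3) (by linarith) (by linarith) (by linarith) le_rfl⟩
  have heq : ∀ p : ℂ × ℂ, p.2 ∈ ball g0 r → y1 < p.1.im → p.1.im < T1 p.2 → p.1.im < T2 p.2 →
      pe (ε n) a1 D0 p = pe (ε n) a2 D0 p := by
    intro p hp e1 e2 e3
    -- shift into the stretch
    obtain ⟨k, hk⟩ : ∃ k : ℤ, a1 ≤ p.1.re + k * ε n ∧ p.1.re + k * ε n ≤ a2 := by
      refine ⟨⌈(a1 - p.1.re) / ε n⌉, ?_, ?_⟩
      · have := Int.le_ceil ((a1 - p.1.re) / ε n)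
        rw [div_le_iff₀ he] at this
        linarith
      · have := Int.ceil_lt_add_one ((a1 - p.1.re) / ε n)
        have h7 : ((⌈(a1 - p.1.re) / ε n⌉ : ℤ) : ℝ) * ε n < a1 - p.1.re + ε n := by
          calc ((⌈(a1 - p.1.re) / ε n⌉ : ℤ) : ℝ) * ε n < ((a1 - p.1.re) / ε n + 1) * ε n := by
                gcongr
            _ = a1 - p.1.re + ε n := by
                field_simp
        linarith
    have e4 := heq1 (tr ((k * ε n : ℝ) : ℂ) p) hp (by simpa using e1) (by simpa using e2)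
      (by simpa using e3) (by simpa using hk.1) (by simpa using hk.2)
    rw [← pe_trz he a1 D0 k p, ← pe_trz he a2 D0 k p, e4.1, e4.2]
  refine ⟨fun p => open Classical in if p.1.im < T1 p.2 then pe (ε n) a1 D0 p
    else pe (ε n) a2 D0 p, ?_, ?_, ?_, ?_⟩
  · rintro p ⟨hp1, hp2, hp3⟩
    by_cases h7 : p.1.im < T1 p.2
    · refine (h1a p ⟨hp1, hp2, h7⟩).congr ?_
      filter_upwards [hlow1 p hp1 h7] with q hq
      rw [if_pos hq]
    · have h8 : p.1.im < T2 p.2 := by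
        rcases lt_max_iff.1 hp3 with h | h
        · exact absurd h h7
        · exact h
      refine (h2a p ⟨hp1, hp2, h8⟩).congr ?_
      have h9 : ∀ᶠ q : ℂ × ℂ in 𝓝 p, y1 < q.1.im :=
        (continuous_im.comp continuous_fst).continuousAt.eventually (lt_mem_nhds hp2)
      filter_upwards [hlow2 p hp1 h8, h9, hball.mem_nhds hp1] with q hq hq2 hq3
      by_cases h10 : q.1.im < T1 q.2
      · rw [if_pos h10, heq q hq3 hq2 h10 hq]
      · rw [if_neg h10]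
  · intro p
    have e1 : (tr ((ε n : ℝ) : ℂ) p).1.im = p.1.im := by simp
    have e2 : (tr ((ε n : ℝ) : ℂ) p).2 = p.2 := rfl
    simp only [e1, e2, pe_tr he]
  · rintro p ⟨hp1, hp2, hp3⟩
    beta_reduce
    by_cases h7 : p.1.im < T1 p.2
    · rw [if_pos h7]
      exact h1b p ⟨hp1, hp2, h7⟩
    · have h8 : p.1.im < T2 p.2 := by
        rcases lt_max_iff.1 hp3 with h | h
        · exact absurd h h7
        · exact h
      rw [if_neg h7]
      exact h2b p ⟨hp1, hp2, h8⟩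
  · rintro p ⟨hp1, hp2, hp3⟩ e4 e5
    obtain ⟨e2, e3⟩ := lt_min_iff.1 hp3
    beta_reduce
    rw [if_pos e2, (heq1 p hp1 hp2 e2 e3 e4 e5).1]
    have hpH : p ∈ cthickening w H := self_subset_cthickening H
      ⟨ball_subset_closedBall hp1, e4, e5, hp2.le, e2.le, e3.le⟩
    rw [← h4 p hpH]
    congr 1
    rw [hD0]
    beta_reduce
    rw [add_sub_cancel]

end Pool.Agent.MP_ae5b4e_an_A4
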