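import Pool.Agent.Lib.MP_ae5b4e_an_A4.Kink
import Pool.Agent.Lib.MP_ae5b4e_an_A4.Ext
import Pool.Agent.Lib.MP_ae5b4e_an_A4.Long

/-!
# MP_ae5b4e_an, POR (iii), STEP A, block A4 (existence): continuation of the labels above the line

Combination of the long box (`exists_long`), the kink and `ext_modes`.
-/

noncomputable section

namespace Pool.Agent.MP_ae5b4e_an_A4

open Complex Set Filter Topology Metric
open Pool.Agent.MP_ae5b4e_an_A1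
open Pool.Agent.MP_ae5b4e_an_BX (Rec isOpen_Rec convex_Rec Rec_mono)

variable {U : Ultrafilter ℕ} {ε : ℕ → ℝ} {M Ω : Set (ℂ × ℂ)} {g : ℂ × ℂ → ℂ × ℂ}
  {gn : ℕ → ℂ × ℂ → ℂ × ℂ} {z : ℂ × ℂ → ℂ × ℂ}

/-- `F (ζ, γ) := D (ζ / N, γ)` satisfies the hypotheses of `ext_modes` -/
theorem per_of {e κ y1 r : ℝ} {g0 : ℂ} {T S : ℂ → ℝ} {D : ℂ × ℂ → ℂ × ℂ} (he : 0 < e)
    (hST : ∀ γ ∈ ball g0 r, S γ ≤ T γ) (han : AnalyticOnNhd ℂ D (Str y1 T g0 r))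
    (hper : ∀ p, D (tr (e : ℂ) p) = D p) (hbd : ∀ p ∈ Str y1 T g0 r, ‖D p‖ ≤ κ) :
    Per (1 / e) y1 κ S g0 r (fun p => (D ((e : ℂ) * p.1, p.2)).1) ∧
    Per (1 / e) y1 κ S g0 r (fun p => (D ((e : ℂ) * p.1, p.2)).2) := by
  have hm : ∀ p ∈ SN (1 / e) y1 S g0 r, ((e : ℂ) * p.1, p.2) ∈ Str y1 T g0 r := by
    rintro p ⟨h1, h2, h3⟩
    have him : ((e : ℂ) * p.1).im = e * p.1.im := by simp
    rw [one_div, inv_mul_lt_iff₀ he] at h2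
    rw [one_div, lt_inv_mul_iff₀ he] at h3
    exact ⟨h1, by rw [him]; exact h2, by rw [him]; exact h3.trans_le (hST _ h1)⟩
  have hsc : ∀ p : ℂ × ℂ, AnalyticAt ℂ (fun p : ℂ × ℂ => ((e : ℂ) * p.1, p.2)) p := fun p =>
    (analyticAt_const.mul analyticAt_fst).prod analyticAt_snd
  have hD : ∀ p ∈ SN (1 / e) y1 S g0 r, AnalyticAt ℂ (fun p : ℂ × ℂ => D ((e : ℂ) * p.1, p.2)) p :=
    fun p hp => AnalyticAt.comp (g := D) (f := fun p : ℂ × ℂ => ((e : ℂ) * p.1, p.2))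
      (han _ (hm p hp)) (hsc p)
  have hp1 : ∀ p : ℂ × ℂ, D ((e : ℂ) * (p.1 + 1), p.2) = D ((e : ℂ) * p.1, p.2) := by
    intro p
    rw [← hper ((e : ℂ) * p.1, p.2)]
    congr 1
    ext
    · simp [tr]
      ring
    · simp [tr]
  constructor
  · refine ⟨fun p hp => ?_, fun p _ => ?_, fun p hp => ?_⟩
    · exact AnalyticAt.comp (g := fun q : ℂ × ℂ => q.1) analyticAt_fst (hD p hp)
    · show (D ((e : ℂ) * (p.1 + 1), p.2)).1 = _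
      rw [hp1]
    · exact (norm_fst_le _).trans (hbd _ (hm p hp))
  · refine ⟨fun p hp => ?_, fun p _ => ?_, fun p hp => ?_⟩
    · exact AnalyticAt.comp (g := fun q : ℂ × ℂ => q.2) analyticAt_snd (hD p hp)
    · show (D ((e : ℂ) * (p.1 + 1), p.2)).2 = _
      rw [hp1]
    · exact (norm_snd_le _).trans (hbd _ (hm p hp))

/-- **EXTENSION OF THE DEVIATION** over a kinked top -/
theorem ext_dev {v0 p C Dd g0 a1 a2 y1 r c0 : ℝ} (hg : 0 < g0) (hDd : 0 ≤ Dd)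
    (hC : C < (a2 - a1) / 2) (hr : 0 < r) (hrg : r ≤ g0 / 2) (hy1 : y1 < -(v0 / g0))
    (hc0 : 0 < c0) :
    ∃ ρ c : ℝ, 0 < ρ ∧ ρ ≤ r ∧ 0 < c ∧ c ≤ c0 ∧ ∀ δ : ℝ, 0 < δ → ∃ e0 : ℝ, 0 < e0 ∧
      ∀ e : ℝ, 0 < e → e ≤ e0 → ∀ (κ : ℝ) (D : ℂ × ℂ → ℂ × ℂ),
      AnalyticOnNhd ℂ D (Str y1 (fun γ => max (TT v0 p C Dd g0 a1 γ - c)
        (TT v0 p C Dd g0 a2 γ - c)) g0 r) →
      (∀ q, D (tr (e : ℂ) q) = D q) →
      (∀ q ∈ Str y1 (fun γ => max (TT v0 p C Dd g0 a1 γ - c)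
        (TT v0 p C Dd g0 a2 γ - c)) g0 r, ‖D q‖ ≤ κ) →
      ∃ D' : ℂ × ℂ → ℂ × ℂ,
        AnalyticOnNhd ℂ D' {q | q.2 ∈ ball (g0 : ℂ) ρ ∧ y1 + δ < q.1.im ∧
          q.1.im < -(v0 / g0) + c} ∧
        (∀ q : ℂ × ℂ, q.2 ∈ ball (g0 : ℂ) ρ → y1 < q.1.im → q.1.im < -(v0 / g0) - 2 * c →
          D' q = D q) ∧
        (∀ q : ℂ × ℂ, q.2 ∈ ball (g0 : ℂ) ρ → y1 + δ < q.1.im → q.1.im < -(v0 / g0) + c →
          ‖D' q‖ ≤ 2 * κ) := by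
  obtain ⟨α, hα⟩ : ∃ α, α = p / g0 - v0 / g0 ^ 2 := ⟨_, rfl⟩
  obtain ⟨β, hβ⟩ : ∃ β, β = (a1 + a2) / 2 / g0 := ⟨_, rfl⟩
  obtain ⟨μ, hμ⟩ : ∃ μ, μ = ((a2 - a1) / 2 - C) / (2 * g0) := ⟨_, rfl⟩
  obtain ⟨B, hB⟩ : ∃ B, B = 2 * (Dd + |α| + |β|) / g0 := ⟨_, rfl⟩
  have hμ0 : 0 < μ := by
    rw [hμ]
    have : 0 < (a2 - a1) / 2 - C := by linarith
    positivity
  have hB0 : 0 ≤ B := by
    rw [hB]
    positivity
  obtain ⟨ρ, c, hρ, hρr, hc, hcc, hext⟩ := ext_modes (R0 := v0 / g0) (α := α) (β := β) (μ := μ)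
    (B := B) (y1 := y1) (r := r) (c0 := c0) (g0 := (g0 : ℂ)) hμ0 hB0 hr hy1 hc0
  -- near the centre the rate is at most `R0 + c`
  obtain ⟨ρ', hρ', hρ'ρ, hRT⟩ : ∃ ρ' : ℝ, 0 < ρ' ∧ ρ' ≤ ρ ∧ ∀ γ ∈ ball (g0 : ℂ) ρ',
      RT (v0 / g0) α β μ B g0 γ < v0 / g0 + c := by
    have h1 : Continuous (RT (v0 / g0) α β μ B (g0 : ℂ)) := by
      unfold RT
      fun_prop
    have h2 : RT (v0 / g0) α β μ B (g0 : ℂ) g0 < v0 / g0 + c := by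
      unfold RT
      simp
      exact hc
    obtain ⟨s, hs, hs2⟩ := Metric.mem_nhds_iff.1 (h1.continuousAt.eventually (gt_mem_nhds h2))
    exact ⟨min s ρ, lt_min hs hρ, min_le_right _ _,
      fun γ hγ => hs2 (ball_subset_ball (min_le_left _ _) hγ)⟩
  refine ⟨ρ', c, hρ', hρ'ρ.trans hρr, hc, hcc, fun δ hδ => ?_⟩
  obtain ⟨N0, hN0, hN⟩ := hext δ hδ
  refine ⟨1 / N0, by positivity, fun e he hee κ D han hper hbd => ?_⟩
  have hNe : N0 ≤ 1 / e := by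
    rw [le_div_iff₀ he]
    rw [le_div_iff₀ hN0] at hee
    linarith
  have hkink : ∀ γ ∈ ball (g0 : ℂ) r, -RT (v0 / g0) α β μ B g0 γ - c ≤
      max (TT v0 p C Dd g0 a1 γ - c) (TT v0 p C Dd g0 a2 γ - c) := by
    intro γ hγ
    rw [mem_ball, dist_eq_norm] at hγ
    have h1 := kink (v0 := v0) (p := p) (C := C) (D := Dd) (a1 := a1) (a2 := a2) hg hDd hC
      (γ := γ) (hγ.le.trans hrg)
    rw [← hα, ← hβ, ← hμ, ← hB] at h1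
    rcases le_max_iff.1 h1 with h2 | h2
    · exact le_max_of_le_left (by linarith)
    · exact le_max_of_le_right (by linarith)
  obtain ⟨hF1, hF2⟩ := per_of (S := fun γ => -RT (v0 / g0) α β μ B g0 γ - c) he hkink han hper hbd
  obtain ⟨F1, k1, k2, k3⟩ := hN (1 / e) hNe κ _ hF1
  obtain ⟨F2, l1, l2, l3⟩ := hN (1 / e) hNe κ _ hF2
  have hsc : ∀ q : ℂ × ℂ, AnalyticAt ℂ (fun q : ℂ × ℂ => (((1 / e : ℝ) : ℂ) * q.1, q.2)) q :=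
    fun q => (analyticAt_const.mul analyticAt_fst).prod analyticAt_snd
  have him : ∀ q : ℂ × ℂ, (((1 / e : ℝ) : ℂ) * q.1).im = 1 / e * q.1.im := fun q => by
    rw [im_ofReal_mul]
  have hep : 0 < 1 / e := by positivity
  have hmem : ∀ q : ℂ × ℂ, q.2 ∈ ball (g0 : ℂ) ρ' → y1 + δ < q.1.im →
      q.1.im < -(v0 / g0) + c → (((1 / e : ℝ) : ℂ) * q.1, q.2).2 ∈ ball (g0 : ℂ) ρ ∧
        1 / e * (y1 + δ) < ((((1 / e : ℝ) : ℂ) * q.1, q.2) : ℂ × ℂ).1.im ∧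
        ((((1 / e : ℝ) : ℂ) * q.1, q.2) : ℂ × ℂ).1.im < 1 / e * (-(v0 / g0) + c) := by
    intro q h1 h2 h3
    refine ⟨ball_subset_ball hρ'ρ h1, ?_, ?_⟩
    · show _ < (((1 / e : ℝ) : ℂ) * q.1).im
      rw [him]
      exact mul_lt_mul_of_pos_left h2 hep
    · show (((1 / e : ℝ) : ℂ) * q.1).im < _
      rw [him]
      exact mul_lt_mul_of_pos_left h3 hep
  refine ⟨fun q => (F1 (((1 / e : ℝ) : ℂ) * q.1, q.2), F2 (((1 / e : ℝ) : ℂ) * q.1, q.2)),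
    ?_, ?_, ?_⟩
  · rintro q ⟨h1, h2, h3⟩
    have h4 := hmem q h1 h2 h3
    exact (AnalyticAt.comp (g := F1) (f := fun q : ℂ × ℂ => (((1 / e : ℝ) : ℂ) * q.1, q.2))
      (k1 _ h4) (hsc q)).prod
      (AnalyticAt.comp (g := F2) (f := fun q : ℂ × ℂ => (((1 / e : ℝ) : ℂ) * q.1, q.2))
      (l1 _ h4) (hsc q))
  · intro q h1 h2 h3
    have h4 := hRT q.2 h1
    have h5 : (((1 / e : ℝ) : ℂ) * q.1, q.2) ∈
        SN (1 / e) y1 (fun γ => -RT (v0 / g0) α β μ B g0 γ - c) g0 r := by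
      refine ⟨ball_subset_ball (hρ'ρ.trans hρr) h1, ?_, ?_⟩
      · show _ < (((1 / e : ℝ) : ℂ) * q.1).im
        rw [him]
        exact mul_lt_mul_of_pos_left h2 hep
      · show (((1 / e : ℝ) : ℂ) * q.1).im < _
        rw [him]
        refine mul_lt_mul_of_pos_left ?_ hep
        show q.1.im < -RT (v0 / g0) α β μ B g0 q.2 - c
        linarith
    have h6 := k2 _ h5 (ball_subset_ball hρ'ρ h1)
    have h7 := l2 _ h5 (ball_subset_ball hρ'ρ h1)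
    have h8 : (((e : ℂ) * (((1 / e : ℝ) : ℂ) * q.1), q.2) : ℂ × ℂ) = q := by
      have h9 : (e : ℂ) ≠ 0 := by exact_mod_cast he.ne'
      ext
      · push_cast
        field_simp
      · rfl
    have h6' : F1 (((1 / e : ℝ) : ℂ) * q.1, q.2) = (D q).1 := by
      rw [h6]
      show (D ((e : ℂ) * (((1 / e : ℝ) : ℂ) * q.1), q.2)).1 = _
      rw [h8]
    have h7' : F2 (((1 / e : ℝ) : ℂ) * q.1, q.2) = (D q).2 := by
      rw [h7]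
      show (D ((e : ℂ) * (((1 / e : ℝ) : ℂ) * q.1), q.2)).2 = _
      rw [h8]
    show (F1 (((1 / e : ℝ) : ℂ) * q.1, q.2), F2 (((1 / e : ℝ) : ℂ) * q.1, q.2)) = D q
    rw [h6', h7']
  · intro q h1 h2 h3
    have h4 := hmem q h1 h2 h3
    rw [Prod.norm_def]
    exact max_le (k3 _ h4.1 h4.2.1 h4.2.2) (l3 _ h4.1 h4.2.1 h4.2.2)

end Pool.Agent.MP_ae5b4e_an_A4
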