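import Pool.Agent.Lib.MP_ae5b4e_an_A4.Cont

/-!
# MP_ae5b4e_an, POR (iii), STEP A, block A4 (existence): continuation of the labels above the line

Main theorem of the abstract part: a long stretch without singular points and a kinked top give a
continuation of the exact labels above the line.
-/

noncomputable section

namespace Pool.Agent.MP_ae5b4e_an_A4

open Complex Set Filter Topology Metric
open Pool.Agent.MP_ae5b4e_an_A1
open Pool.Agent.MP_ae5b4e_an_BX (Rec isOpen_Rec convex_Rec Rec_mono)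

variable {U : Ultrafilter ℕ} {ε : ℕ → ℝ} {M Ω : Set (ℂ × ℂ)} {g : ℂ × ℂ → ℂ × ℂ}
  {gn : ℕ → ℂ × ℂ → ℂ × ℂ} {z : ℂ × ℂ → ℂ × ℂ}

/-- **CONTINUATION ABOVE THE LINE.** -/
theorem exists_cont (hV : VF U ε M g gn) (hz : Fw M g Ω z) {OL : Set (ℂ × ℂ)} (hOL : IsOpen OL)
    {W : ℕ → ℂ × ℂ → ℂ × ℂ} (hW : Ex U ε gn OL z W) {v0 p C Dd g0 a1 a2 r0 h0 w0 : ℝ}
    (hg : 0 < g0) (hC0 : 0 ≤ C) (hDd : 0 ≤ Dd) (hC : C < (a2 - a1) / 2) (hr0 : 0 < r0)
    (hh0 : 0 < h0) (hw0 : 0 < w0)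
    (hreg : ∀ x ∈ Icc (a1 - w0) (a2 + w0), ((⟨x, -(v0 / g0)⟩ : ℂ), (g0 : ℂ)) ∈ Ω)
    (hlab : ∀ q : ℂ × ℂ, q.2 ∈ closedBall (g0 : ℂ) r0 → a1 ≤ q.1.re → q.1.re ≤ a2 →
      -(v0 / g0) - h0 ≤ q.1.im → q.1.im < TT v0 p C Dd g0 q.1.re q.2 → q ∈ OL) :
    ∃ ρ h c : ℝ, 0 < ρ ∧ 0 < h ∧ 0 < c ∧ h ≤ h0 ∧ ρ ≤ r0 ∧
      Rec a1 a2 (-(v0 / g0) - h) (-(v0 / g0) + c) ×ˢ ball (g0 : ℂ) ρ ⊆ Ω ∧
      ∀ δ : ℝ, 0 < δ → ∀ᶠ n in (U : Filter ℕ), ∃ M' : ℂ × ℂ → ℂ × ℂ,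
        AnalyticOnNhd ℂ M' (Rec a1 a2 (-(v0 / g0) - h) (-(v0 / g0) + c) ×ˢ ball (g0 : ℂ) ρ) ∧
        (∀ q ∈ Rec a1 a2 (-(v0 / g0) - h) (-(v0 / g0) + c) ×ˢ ball (g0 : ℂ) ρ,
          ‖M' q - z q‖ ≤ δ) ∧
        ∀ q ∈ Rec a1 a2 (-(v0 / g0) - h) (-(v0 / g0) + c) ×ˢ ball (g0 : ℂ) ρ,
          q.1.im < -(v0 / g0) - h / 2 → M' q = W n q := by
  have ha : a1 < a2 := by linarith
  obtain ⟨y0, hy0⟩ : ∃ y0, y0 = -(v0 / g0) := ⟨_, rfl⟩
  rw [← hy0] at hreg hlab ⊢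
  -- regular points for nearby parameters
  obtain ⟨rA, hrA, hregA⟩ : ∃ rA : ℝ, 0 < rA ∧ ∀ q : ℂ × ℂ, a1 - w0 ≤ q.1.re →
      q.1.re ≤ a2 + w0 → q.1.im = y0 → q.2 ∈ closedBall (g0 : ℂ) rA → q ∈ Ω := by
    have hS : IsCompact ((Icc (a1 - w0) (a2 + w0) ×ℂ {y0}) ×ˢ {(g0 : ℂ)}) :=
      (isCompact_Icc.reProdIm isCompact_singleton).prod isCompact_singleton
    have hSΩ : (Icc (a1 - w0) (a2 + w0) ×ℂ {y0}) ×ˢ {(g0 : ℂ)} ⊆ Ω := by
      rintro q ⟨⟨h1, h2⟩, h3⟩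
      have h4 := hreg _ h1
      have h5 : q = ((⟨q.1.re, y0⟩ : ℂ), (g0 : ℂ)) := by
        refine Prod.ext ?_ h3
        exact Complex.ext rfl h2
      rw [h5]
      exact h4
    obtain ⟨κ, hκ, hκΩ⟩ := hS.exists_cthickening_subset_open hz.Ω_open hSΩ
    refine ⟨κ, hκ, fun q h1 h2 h3 h4 => hκΩ ?_⟩
    refine mem_cthickening_of_dist_le q (q.1, (g0 : ℂ)) κ _ ⟨⟨⟨h1, h2⟩, h3⟩, rfl⟩ ?_
    rw [Prod.dist_eq, dist_self, max_eq_right dist_nonneg]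
    exact h4
  -- the box
  obtain ⟨h1, hh1, hbox⟩ := exists_ex hV hz (a₁ := a1 - w0) (a₂ := a2 + w0) (y := y0)
    (by linarith) hrA hregA
  obtain ⟨H, hH, hHh1, hHh0⟩ : ∃ H : ℝ, 0 < H ∧ H ≤ h1 ∧ H ≤ h0 :=
    ⟨min h1 h0, lt_min hh1 hh0, min_le_left _ _, min_le_right _ _⟩
  obtain ⟨hRΩ, Z, hZ⟩ := hbox H hH hHh1
  -- the radius
  obtain ⟨r, hr, hrA', hrr0, hrg, hTT⟩ : ∃ r : ℝ, 0 < r ∧ r < rA ∧ r ≤ r0 ∧ r ≤ g0 / 2 ∧
      ∀ γ ∈ closedBall (g0 : ℂ) r, |TT v0 p C Dd g0 a1 γ - y0| < H / 16 ∧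
        |TT v0 p C Dd g0 a2 γ - y0| < H / 16 := by
    have hc : ∀ a : ℝ, ∀ᶠ γ in 𝓝 (g0 : ℂ), |TT v0 p C Dd g0 a γ - y0| < H / 16 := by
      intro a
      have h2 : ContinuousAt (TT v0 p C Dd g0 a) (g0 : ℂ) :=
        (TT_continuousOn hg).continuousAt (closedBall_mem_nhds _ (by positivity))
      have h3 : ContinuousAt (fun γ => |TT v0 p C Dd g0 a γ - y0|) (g0 : ℂ) :=
        (h2.sub continuousAt_const).abs
      refine h3.eventually (gt_mem_nhds ?_)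
      beta_reduce
      rw [TT_self, ← hy0, sub_self, abs_zero]
      positivity
    obtain ⟨s, hs, hs2⟩ := nhds_basis_closedBall.mem_iff.1 ((hc a1).and (hc a2))
    refine ⟨min (min s (rA / 2)) (min r0 (g0 / 2)), lt_min (lt_min hs (by positivity))
      (lt_min hr0 (by positivity)), ?_, (min_le_right _ _).trans (min_le_left _ _),
      (min_le_right _ _).trans (min_le_right _ _), fun γ hγ => hs2 (closedBall_subset_closedBall
      ((min_le_left _ _).trans (min_le_left _ _)) hγ)⟩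
    have := (min_le_left (min s (rA / 2)) (min r0 (g0 / 2))).trans (min_le_right _ _)
    linarith
  -- the extension
  obtain ⟨ρ, c, hρ, hρr, hc, hcH, hext⟩ := ext_dev (v0 := v0) (p := p) (C := C) (Dd := Dd)
    (g0 := g0) (a1 := a1) (a2 := a2) (y1 := y0 - H / 2) (r := r) (c0 := H / 32) hg hDd hC hr hrg
    (by rw [← hy0]; linarith) (by positivity)
  rw [← hy0] at hext
  obtain ⟨e0, he0, hext⟩ := hext (H / 8) (by positivity)
  have hRsub : Rec a1 a2 (y0 - H / 4) (y0 + c) ×ˢ ball (g0 : ℂ) (ρ / 2) ⊆ Ω := by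
    refine subset_trans (prod_mono (Rec_mono ?_ ?_ ?_ ?_) (ball_subset_ball ?_)) hRΩ
    · linarith
    · linarith
    · linarith
    · linarith
    · linarith
  refine ⟨ρ / 2, H / 4, c, by positivity, by positivity, hc, by linarith, by linarith, hRsub,
    fun δ hδ => ?_⟩
  -- the compact set
  have hKc : IsCompact ((Icc (a1 - w0 / 2) (a2 + w0 / 2) ×ℂ Icc (y0 - H / 2) (y0 + H / 2)) ×ˢ
      closedBall (g0 : ℂ) r) :=
    (isCompact_Icc.reProdIm isCompact_Icc).prod (isCompact_closedBall _ _)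
  obtain ⟨K, hK⟩ : ∃ K : Set (ℂ × ℂ), K = (Icc (a1 - w0 / 2) (a2 + w0 / 2) ×ℂ
      Icc (y0 - H / 2) (y0 + H / 2)) ×ˢ closedBall (g0 : ℂ) r := ⟨_, rfl⟩
  rw [← hK] at hKc
  have hKR : K ⊆ Rec (a1 - w0) (a2 + w0) (y0 - H) (y0 + H) ×ˢ ball (g0 : ℂ) rA := by
    rw [hK]
    rintro q ⟨⟨⟨k1, k2⟩, k3, k4⟩, k5⟩
    exact ⟨⟨by linarith, by linarith, by linarith, by linarith⟩,
      closedBall_subset_ball hrA' k5⟩
  have hKΩ : K ⊆ Ω := hKR.trans hRΩ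
  have hzu : UniformContinuousOn z K := hKc.uniformContinuousOn_of_continuous
    fun q hq => (hz.z_an q (hKΩ hq)).continuousAt.continuousWithinAt
  obtain ⟨κ2, hκ2, hzu⟩ := Metric.uniformContinuousOn_iff_le.1 hzu (δ / 2) (by positivity)
  obtain ⟨κ, hκ, hκw, hκH, hκρ, hκκ⟩ : ∃ κ : ℝ, 0 < κ ∧ 2 * κ ≤ w0 / 2 ∧ 2 * κ ≤ H / 16 ∧
      2 * κ ≤ ρ / 2 ∧ 2 * κ ≤ κ2 := by
    refine ⟨min (min (w0 / 4) (H / 32)) (min (ρ / 4) (κ2 / 2)), lt_min (lt_min (by positivity)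
      (by positivity)) (lt_min (by positivity) (by positivity)), ?_, ?_, ?_, ?_⟩
    · have := (min_le_left (min (w0 / 4) (H / 32)) (min (ρ / 4) (κ2 / 2))).trans
        (min_le_left _ _)
      linarith
    · have := (min_le_left (min (w0 / 4) (H / 32)) (min (ρ / 4) (κ2 / 2))).trans
        (min_le_right _ _)
      linarith
    · have := (min_le_right (min (w0 / 4) (H / 32)) (min (ρ / 4) (κ2 / 2))).trans
        (min_le_left _ _)
      linarith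
    · have := (min_le_right (min (w0 / 4) (H / 32)) (min (ρ / 4) (κ2 / 2))).trans
        (min_le_right _ _)
      linarith
  have hcont : ∀ a : ℝ, ContinuousOn (fun γ => TT v0 p C Dd g0 a γ - c)
      (closedBall (g0 : ℂ) r) := fun a =>
    ((TT_continuousOn hg).mono (closedBall_subset_closedBall hrg)).sub continuousOn_const
  have hmem : ∀ q : ℂ × ℂ, q.2 ∈ closedBall (g0 : ℂ) r → a1 ≤ q.1.re → q.1.re ≤ a2 →
      y0 - H / 2 ≤ q.1.im → q.1.im ≤ y0 + H / 16 → q.1.im < TT v0 p C Dd g0 q.1.re q.2 →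
      q ∈ Rec (a1 - w0) (a2 + w0) (y0 - H) (y0 + H) ×ˢ ball (g0 : ℂ) rA ∩ OL := by
    intro q k1 k2 k3 k4 k5 k6
    refine ⟨⟨⟨by linarith, by linarith, by linarith, by linarith⟩,
      closedBall_subset_ball hrA' k1⟩, ?_⟩
    exact hlab q (closedBall_subset_closedBall hrr0 k1) k2 k3 (by linarith) k6
  have hlong := exists_long hV hz hOL hW
    (R := Rec (a1 - w0) (a2 + w0) (y0 - H) (y0 + H) ×ˢ ball (g0 : ℂ) rA)
    ((isOpen_Rec _ _ _ _).prod isOpen_ball) hRΩ hZ (a1 := a1) (a2 := a2) (y1 := y0 - H / 2)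
    (r := r) (g0 := (g0 : ℂ)) (T1 := fun γ => TT v0 p C Dd g0 a1 γ - c)
    (T2 := fun γ => TT v0 p C Dd g0 a2 γ - c) ha (hcont a1) (hcont a2)
    (by
      rintro q ⟨k1, k2, k3, k4⟩
      have k5 := (hTT q.2 k1).1
      rw [abs_lt] at k5
      beta_reduce at k4
      refine hmem q k1 k2.ge (by rw [k2]; exact ha.le) k3 (by linarith) ?_
      rw [k2]
      linarith)
    (by
      rintro q ⟨k1, k2, k3, k4⟩
      have k5 := (hTT q.2 k1).2
      rw [abs_lt] at k5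
      beta_reduce at k4
      refine hmem q k1 (by rw [k2]; exact ha.le) k2.le k3 (by linarith) ?_
      rw [k2]
      linarith)
    (by
      intro q k1 k2 k3 k4 k5 k6
      have k7 := (hTT q.2 k1).1
      rw [abs_lt] at k7
      refine hmem q k1 k2 k3 k4 (by linarith) ?_
      have k8 : ‖q.2 - g0‖ ≤ g0 / 2 := by
        rw [mem_closedBall, dist_eq_norm] at k1
        exact k1.trans hrg
      have k9 := TT_between (v0 := v0) (p := p) (C := C) (D := Dd) hg k8 k2 k3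
      refine lt_of_lt_of_le ?_ k9
      exact lt_min (by linarith) (by linarith)) hκ
  filter_upwards [hlong, hV.ε_lim.eventually (gt_mem_nhds he0), hZ.an K hKR hKc,
    hZ.conv K hKR hKc (δ / 2) (by positivity)] with n hn1 hn2 hn3 hn4
  obtain ⟨D, hD1, hD2, hD3, hD4⟩ := hn1
  obtain ⟨D', hD'1, hD'2, hD'3⟩ := hext (ε n) (hV.ε_pos n) hn2.le κ D hD1 hD2 hD3
  have hin : ∀ q ∈ Rec a1 a2 (y0 - H / 4) (y0 + c) ×ˢ ball (g0 : ℂ) (ρ / 2),
      q ∈ K ∧ q + D' q ∈ K ∧ ‖D' q‖ ≤ 2 * κ ∧ AnalyticAt ℂ D' q := by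
    rintro q ⟨⟨k1, k2, k3, k4⟩, k5⟩
    have k5' : q.2 ∈ ball (g0 : ℂ) ρ := ball_subset_ball (by linarith) k5
    have k6 := hD'3 q k5' (by linarith) k4
    have k7 : ‖(D' q).1‖ ≤ 2 * κ := (norm_fst_le _).trans k6
    have k8 : ‖(D' q).2‖ ≤ 2 * κ := (norm_snd_le _).trans k6
    have k9 := abs_le.1 ((abs_re_le_norm _).trans k7)
    have k10 := abs_le.1 ((abs_im_le_norm _).trans k7)
    rw [mem_ball, dist_eq_norm] at k5
    refine ⟨?_, ?_, k6, hD'1 q ⟨k5', by linarith, k4⟩⟩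
    · rw [hK]
      refine ⟨⟨⟨by linarith, by linarith⟩, by linarith, by linarith⟩, ?_⟩
      rw [mem_closedBall, dist_eq_norm]
      linarith
    · rw [hK]
      refine ⟨⟨⟨?_, ?_⟩, ?_, ?_⟩, ?_⟩
      · rw [Prod.fst_add, add_re]
        linarith [k9.1]
      · rw [Prod.fst_add, add_re]
        linarith [k9.2]
      · rw [Prod.fst_add, add_im]
        linarith [k10.1]
      · rw [Prod.fst_add, add_im]
        linarith [k10.2]
      · rw [mem_closedBall, dist_eq_norm, Prod.snd_add]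
        have e1 : q.2 + (D' q).2 - (g0 : ℂ) = (q.2 - g0) + (D' q).2 := by ring
        rw [e1]
        have := norm_add_le (q.2 - (g0 : ℂ)) (D' q).2
        linarith
  refine ⟨fun q => Z n (q + D' q), fun q hq => ?_, fun q hq => ?_, fun q hq hq2 => ?_⟩
  · obtain ⟨k1, k2, k3, k4⟩ := hin q hq
    exact AnalyticAt.comp (g := Z n) (f := fun q => q + D' q) (hn3 _ k2) (analyticAt_id.add k4)
  · obtain ⟨k1, k2, k3, k4⟩ := hin q hq
    have k5 := hn4 _ k2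
    have k6 := hzu (q + D' q) k2 q k1 (by
      rw [dist_eq_norm, add_sub_cancel_left]
      exact k3.trans hκκ)
    rw [dist_eq_norm] at k6
    have k7 : Z n (q + D' q) - z q = (Z n (q + D' q) - z (q + D' q)) + (z (q + D' q) - z q) := by
      abel
    rw [k7]
    refine (norm_add_le _ _).trans ?_
    linarith
  · obtain ⟨⟨k1, k2, k3, k4⟩, k5⟩ := hq
    have k5' : q.2 ∈ ball (g0 : ℂ) ρ := ball_subset_ball (by linarith) k5
    have k5'' : q.2 ∈ ball (g0 : ℂ) r := ball_subset_ball hρr k5'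
    have k6 : D' q = D q := hD'2 q k5' (by linarith) (by linarith)
    have k7 := hTT q.2 (ball_subset_closedBall k5'')
    have k8 := abs_lt.1 k7.1
    have k9 := abs_lt.1 k7.2
    have k10 := hD4 q ⟨k5'', by linarith, lt_min (by linarith) (by linarith)⟩ k1.le k2.le
    show Z n (q + D' q) = W n q
    rw [k6, k10]

end Pool.Agent.MP_ae5b4e_an_A4
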