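import Pool.Agent.Lib.MP_ae5b4e_an_A4.Kink

/-!
# MP_ae5b4e_an, POR (iii), STEP A, block A4 (existence): geometry of the label domain
-/

noncomputable section

namespace Pool.Agent.MP_ae5b4e_an_A4

open Complex Set Filter Topology Metric

theorem TT_le_max {v0 p C D g0 a1 a2 s : ℝ} (hg : 0 < g0) {γ : ℂ} (hγ : ‖γ - g0‖ ≤ g0 / 2)
    (h1 : a1 ≤ s) (h2 : s ≤ a2) :
    TT v0 p C D g0 s γ ≤ max (TT v0 p C D g0 a1 γ) (TT v0 p C D g0 a2 γ) := by
  have hre := re_pos_of hg hγ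
  have hre0 : 0 < γ.re := by linarith
  unfold TT
  rcases le_total 0 γ.im with h | h
  · refine le_max_of_le_left ?_
    gcongr
  · refine le_max_of_le_right ?_
    rw [div_le_div_iff_of_pos_right hre0]
    nlinarith

/-- the label domain over a stretch, near `g0`, in the coordinates `(θ, γ)` -/
theorem geo_lab {v0 p C D g0 a1 a2 x1 x2 b r rc : ℝ} (hg : 0 < g0) (_ha : a1 < a2)
    (hx1 : x1 < a1 * g0) (hx2 : a2 * g0 < x2) (hb : 0 < b) (hr : 0 < r) (hrc : 0 < rc) :
    ∃ r0 h0 : ℝ, 0 < r0 ∧ 0 < h0 ∧ r0 ≤ rc ∧ ∀ q : ℂ × ℂ, q.2 ∈ closedBall (g0 : ℂ) r0 →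
      a1 ≤ q.1.re → q.1.re ≤ a2 → -(v0 / g0) - h0 ≤ q.1.im →
      q.1.im < TT v0 p C D g0 q.1.re q.2 →
      q.2 ∈ ball (g0 : ℂ) r ∧ x1 < (q.1 * q.2).re ∧ (q.1 * q.2).re < x2 ∧
        |(q.1 * q.2).im + v0| < b ∧
        (q.1 * q.2).im < -(v0 + p * (q.2 - g0).re + C * |(q.2 - g0).im| + D * ‖q.2 - g0‖ ^ 2) := by
  obtain ⟨h0, hh0, hh0b⟩ : ∃ h0 : ℝ, 0 < h0 ∧ h0 * g0 ≤ b / 4 :=
    ⟨b / (4 * g0), by positivity, by
      refine le_of_eq ?_
      field_simp⟩
  -- continuity of the tops at the centre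
  have hc : ∀ a : ℝ, ∀ᶠ γ in 𝓝 (g0 : ℂ), TT v0 p C D g0 a γ < -(v0 / g0) + h0 := by
    intro a
    have h2 : ContinuousAt (TT v0 p C D g0 a) (g0 : ℂ) :=
      (TT_continuousOn hg).continuousAt (closedBall_mem_nhds _ (by positivity))
    refine h2.eventually (gt_mem_nhds ?_)
    rw [TT_self]
    linarith
  obtain ⟨s, hs, hs2⟩ := nhds_basis_closedBall.mem_iff.1 ((hc a1).and (hc a2))
  -- the size of `θ`
  obtain ⟨B, hB⟩ : ∃ B : ℝ, B = |a1| + |a2| + |v0 / g0| + h0 + 1 := ⟨_, rfl⟩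
  have hB0 : 0 < B := by
    rw [hB]
    positivity
  obtain ⟨d, hd, hdx1, hdx2, hdb⟩ : ∃ d : ℝ, 0 < d ∧ d ≤ a1 * g0 - x1 ∧ d ≤ x2 - a2 * g0 ∧
      d ≤ b / 4 :=
    ⟨min (min (a1 * g0 - x1) (x2 - a2 * g0)) (b / 4), lt_min (lt_min (by linarith)
      (by linarith)) (by positivity), (min_le_left _ _).trans (min_le_left _ _),
      (min_le_left _ _).trans (min_le_right _ _), min_le_right _ _⟩
  obtain ⟨r0, hr0, hr0s, hr0g, hr0c, hr0r, hr0B⟩ : ∃ r0 : ℝ, 0 < r0 ∧ r0 ≤ s ∧ r0 ≤ g0 / 2 ∧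
      r0 ≤ rc ∧ r0 ≤ r / 2 ∧ 2 * B * r0 < d := by
    refine ⟨min (min s (g0 / 2)) (min (min rc (r / 2)) (d / (4 * B))), lt_min (lt_min hs
      (by positivity)) (lt_min (lt_min hrc (by positivity)) (by positivity)),
      (min_le_left _ _).trans (min_le_left _ _), (min_le_left _ _).trans (min_le_right _ _),
      (min_le_right _ _).trans ((min_le_left _ _).trans (min_le_left _ _)),
      (min_le_right _ _).trans ((min_le_left _ _).trans (min_le_right _ _)), ?_⟩
    have h3 : min (min s (g0 / 2)) (min (min rc (r / 2)) (d / (4 * B))) ≤ d / (4 * B) :=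
      (min_le_right _ _).trans (min_le_right _ _)
    rw [le_div_iff₀ (by positivity)] at h3
    linarith
  refine ⟨r0, h0, hr0, hh0, hr0c, fun q h1 h2 h3 h4 h5 => ?_⟩
  have hn : ‖q.2 - g0‖ ≤ r0 := by
    rw [mem_closedBall, dist_eq_norm] at h1
    exact h1
  have hng : ‖q.2 - g0‖ ≤ g0 / 2 := hn.trans hr0g
  have hre := re_pos_of hg hng
  have hre0 : 0 < q.2.re := by linarith
  obtain ⟨k1, k2⟩ := hs2 (closedBall_subset_closedBall hr0s h1)
  have k3 := TT_le_max (v0 := v0) (p := p) (C := C) (D := D) hg hng h2 h3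
  have hy2 : q.1.im < -(v0 / g0) + h0 := h5.trans_le (k3.trans (max_le k1.le k2.le))
  have hyB : |q.1.im| ≤ |v0 / g0| + h0 := by
    have e1 := neg_abs_le (v0 / g0)
    have e2 := le_abs_self (v0 / g0)
    rw [abs_le]
    constructor <;> linarith
  have hsB : |q.1.re| ≤ |a1| + |a2| := by
    have e1 := neg_abs_le a1
    have e2 := le_abs_self a2
    have e3 := abs_nonneg a1
    have e4 := abs_nonneg a2
    rw [abs_le]
    constructor <;> linarith
  have hx : |(q.2 - g0).re| ≤ r0 := (abs_re_le_norm _).trans hn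
  have hyy : |(q.2 - g0).im| ≤ r0 := (abs_im_le_norm _).trans hn
  have ere : (q.2 - g0).re = q.2.re - g0 := by simp
  have eim : (q.2 - g0).im = q.2.im := by simp
  have e1 : |q.1.re * (q.2 - g0).re - q.1.im * (q.2 - g0).im| ≤ 2 * B * r0 := by
    calc |q.1.re * (q.2 - g0).re - q.1.im * (q.2 - g0).im|
        ≤ |q.1.re * (q.2 - g0).re| + |q.1.im * (q.2 - g0).im| := abs_sub _ _
      _ = |q.1.re| * |(q.2 - g0).re| + |q.1.im| * |(q.2 - g0).im| := by rw [abs_mul, abs_mul]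
      _ ≤ B * r0 + B * r0 := by
          have m1 : |q.1.re| ≤ B := by
            rw [hB]
            have := abs_nonneg (v0 / g0)
            linarith
          have m2 : |q.1.im| ≤ B := by
            rw [hB]
            have := abs_nonneg a1
            have := abs_nonneg a2
            linarith
          gcongr
      _ = 2 * B * r0 := by ring
  have e2 : |q.1.im * (q.2 - g0).re + q.1.re * (q.2 - g0).im| ≤ 2 * B * r0 := by
    calc |q.1.im * (q.2 - g0).re + q.1.re * (q.2 - g0).im|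
        ≤ |q.1.im * (q.2 - g0).re| + |q.1.re * (q.2 - g0).im| := abs_add_le _ _
      _ = |q.1.im| * |(q.2 - g0).re| + |q.1.re| * |(q.2 - g0).im| := by rw [abs_mul, abs_mul]
      _ ≤ B * r0 + B * r0 := by
          have m1 : |q.1.re| ≤ B := by
            rw [hB]
            have := abs_nonneg (v0 / g0)
            linarith
          have m2 : |q.1.im| ≤ B := by
            rw [hB]
            have := abs_nonneg a1
            have := abs_nonneg a2
            linarith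
          gcongr
      _ = 2 * B * r0 := by ring
  have f1 : (q.1 * q.2).re = q.1.re * g0 + (q.1.re * (q.2 - g0).re - q.1.im * (q.2 - g0).im) := by
    rw [mul_re, ere, eim]
    ring
  have f2 : (q.1 * q.2).im = q.1.im * g0 + (q.1.im * (q.2 - g0).re + q.1.re * (q.2 - g0).im) := by
    rw [mul_im, ere, eim]
    ring
  have g1 := abs_le.1 e1
  have g2 := abs_le.1 e2
  have hs1 : a1 * g0 ≤ q.1.re * g0 := by gcongr
  have hs3 : q.1.re * g0 ≤ a2 * g0 := by gcongr
  have hvg : v0 / g0 * g0 = v0 := by field_simp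
  refine ⟨?_, ?_, ?_, ?_, ?_⟩
  · rw [mem_ball, dist_eq_norm]
    linarith
  · rw [f1]
    linarith
  · rw [f1]
    linarith
  · rw [f2, abs_lt]
    have m1 : (-(v0 / g0) - h0) * g0 ≤ q.1.im * g0 := by gcongr
    have m2 : q.1.im * g0 ≤ (-(v0 / g0) + h0) * g0 := by gcongr
    constructor
    · nlinarith
    · nlinarith
  · unfold TT at h5
    rw [lt_div_iff₀ hre0] at h5
    rw [mul_im]
    linarith

end Pool.Agent.MP_ae5b4e_an_A4
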