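import Pool.Agent.Lib.MP_ae5b4e_an_A4.Cont2
import Pool.Agent.Lib.MP_ae5b4e_an_A4.GeoL
import Pool.Agent.Lib.MP_ae5b4e_an_A1.Fld
import Pool.Agent.Lib.MP_ae5b4e_an_A1.Lab
import Pool.Agent.Lib.MP_ae5b4e_an_A1.Slt
import Pool.Agent.Lib.MP_ae5b4e_an_MT.M9
import Pool.Agent.Lib.MP_ae5b4e_an_M.VB
import Pool.Agent.Lib.MP_ae5b4e_an_M.LA

/-!
# MP_ae5b4e_an, POR (iii), STEP A, block A4 (existence): the singular point of the window

`contra`: if the labels of the windows have continuations above the line `Im τ = - v (g0)` over a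
stretch, then there is a contradiction to `Base.gpw`.
-/

noncomputable section

namespace Pool.Agent.MP_ae5b4e_an_A4

open Complex Set Filter Topology Metric
open Pool.Agent.MP_ae5b4e_an_NBT (St Mer EqM)
open Pool.Agent.MP_ae5b4e_an_NB2 (Sys)
open Pool.Agent.MP_ae5b4e_an_N5 (NV)
open Pool.Agent.MP_ae5b4e_an_PB
open Pool.Agent.MP_ae5b4e_an_M
open Pool.Agent.MP_ae5b4e_an_A1
open Pool.Agent.MP_ae5b4e_an_BX (Rec isOpen_Rec)
open Pool.Agent.MP_ae5b4e_an_MT (LS Stp GG Dn wp wq stt Sh)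
open PorTR (Hm)

variable {Y : Sys} {h R C0 : ℝ} {v : ℂ → ℝ} {G L : ℂ × ℂ → ℂ} {U : Ultrafilter ℕ} {β C1 : ℝ}
  {c V : ℕ → ℝ}

/-- the points `(τ, γ)` with `(τ / γ, γ)` in the box -/
def OB (a1 a2 y1 y2 g0 ρ : ℝ) : Set (ℂ × ℂ) :=
  {q | q.2 ≠ 0 ∧ (q.1 / q.2, q.2) ∈ Rec a1 a2 y1 y2 ×ˢ ball (g0 : ℂ) ρ}

theorem Fin_an {q : ℂ × ℂ} (hq : q.2 ≠ 0) :
    AnalyticAt ℂ (fun q : ℂ × ℂ => (q.1 / q.2, q.2)) q :=
  (analyticAt_fst.div analyticAt_snd hq).prod analyticAt_snd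

theorem isOpen_OB (a1 a2 y1 y2 g0 ρ : ℝ) : IsOpen (OB a1 a2 y1 y2 g0 ρ) := by
  have h1 : IsOpen {q : ℂ × ℂ | q.2 ≠ 0} := isOpen_ne_fun continuous_snd continuous_const
  have h2 : ContinuousOn (fun q : ℂ × ℂ => (q.1 / q.2, q.2)) {q : ℂ × ℂ | q.2 ≠ 0} :=
    fun q hq => (Fin_an hq).continuousAt.continuousWithinAt
  exact h2.isOpen_inter_preimage h1 ((isOpen_Rec _ _ _ _).prod isOpen_ball)

theorem seg_OB {a1 a2 y0 k c0 g0 ρ : ℝ} (hg : 0 < g0) (ha : a1 < a2) (hc0 : 0 < c0)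
    (hρ : 0 < ρ) {s : ℝ} (hs0 : 0 ≤ s) (hs : s < k * g0) :
    ((⟨(a1 + a2) / 2 * g0, y0 * g0⟩ - s * I : ℂ), (g0 : ℂ)) ∈ OB a1 a2 (y0 - k) (y0 + c0) g0 ρ := by
  have hgc : (g0 : ℂ) ≠ 0 := by exact_mod_cast hg.ne'
  refine ⟨hgc, ?_, mem_ball_self hρ⟩
  have hre : ((⟨(a1 + a2) / 2 * g0, y0 * g0⟩ - s * I : ℂ) / (g0 : ℂ)).re = (a1 + a2) / 2 := by
    rw [div_ofReal_re]
    simp
    field_simp
  have him : ((⟨(a1 + a2) / 2 * g0, y0 * g0⟩ - s * I : ℂ) / (g0 : ℂ)).im = y0 - s / g0 := by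
    rw [div_ofReal_im]
    simp
    field_simp
  have h1 : s / g0 < k := by
    rw [div_lt_iff₀ hg]
    exact hs
  have h2 : 0 ≤ s / g0 := by positivity
  refine ⟨?_, ?_, ?_, ?_⟩
  · rw [hre]
    linarith
  · rw [hre]
    linarith
  · rw [him]
    linarith
  · rw [him]
    linarith

/-- a window over which the labels have continuations above the line -/
theorem contra (hB : Base Y h R C0 v G L) (HW : Win v U β C1 c V) (x : ℕ → ℝ)
    {g0 a1 a2 k c0 ρ : ℝ} (hg : 0 < g0) (ha : a1 < a2) (hk : 0 < k) (hc0 : 0 < c0) (hρ : 0 < ρ)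
    {Λ : ℂ × ℂ → ℂ} {S : Set (ℂ × ℂ)} (hS : Slt (DI v U c V) (LI L h U x c V) Λ S)
    (hΩ : Rec a1 a2 (-(vI v U c V g0 / g0) - k) (-(vI v U c V g0 / g0) + c0) ×ˢ
      ball (g0 : ℂ) ρ ⊆ {p | (p.1 * p.2, p.2) ∈ S})
    (hM : ∀ δ : ℝ, 0 < δ → ∀ᶠ n in (U : Filter ℕ), ∃ M' : ℂ × ℂ → ℂ × ℂ,
      AnalyticOnNhd ℂ M' (Rec a1 a2 (-(vI v U c V g0 / g0) - k) (-(vI v U c V g0 / g0) + c0) ×ˢ
        ball (g0 : ℂ) ρ) ∧
      (∀ q ∈ Rec a1 a2 (-(vI v U c V g0 / g0) - k) (-(vI v U c V g0 / g0) + c0) ×ˢ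
        ball (g0 : ℂ) ρ, ‖M' q - zf Λ q‖ ≤ δ) ∧
      ∀ q ∈ Rec a1 a2 (-(vI v U c V g0 / g0) - k) (-(vI v U c V g0 / g0) + c0) ×ˢ
        ball (g0 : ℂ) ρ, q.1.im < -(vI v U c V g0 / g0) - k / 2 →
        M' q = lab (fun n => c n / V n) (fun n => Ln L h x c V n) n q) : False := by
  obtain ⟨v0, hv0⟩ : ∃ v0 : ℝ, v0 = vI v U c V g0 := ⟨_, rfl⟩
  rw [← hv0] at hΩ hM
  obtain ⟨y0, hy0⟩ : ∃ y0 : ℝ, y0 = -(v0 / g0) := ⟨_, rfl⟩
  rw [← hy0] at hΩ hM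
  have hy0g : y0 * g0 = -v0 := by
    rw [hy0]
    field_simp
  have hgc : (g0 : ℂ) ≠ 0 := by exact_mod_cast hg.ne'
  obtain ⟨τ0, hτ0⟩ : ∃ τ0 : ℂ, τ0 = ⟨(a1 + a2) / 2 * g0, y0 * g0⟩ := ⟨_, rfl⟩
  have hτre : τ0.re = (a1 + a2) / 2 * g0 := by rw [hτ0]
  have hτim : τ0.im = -v0 := by rw [hτ0, ← hy0g]
  obtain ⟨s0, hs0⟩ : ∃ s0 : ℝ, s0 = 3 / 4 * k * g0 := ⟨_, rfl⟩
  have hs0p : 0 < s0 := by rw [hs0]; positivity
  have hs0k : s0 < k * g0 := by
    rw [hs0]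
    nlinarith [mul_pos hk hg]
  obtain ⟨O, hO⟩ : ∃ O : Set (ℂ × ℂ), O = OB a1 a2 (y0 - k) (y0 + c0) g0 ρ := ⟨_, rfl⟩
  have hOo : IsOpen O := by rw [hO]; exact isOpen_OB _ _ _ _ _ _
  have hOS : ∀ q ∈ O, q ∈ S := by
    intro q hq
    rw [hO] at hq
    have h1 := hΩ hq.2
    have h2 : q.1 / q.2 * q.2 = q.1 := div_mul_cancel₀ _ hq.1
    simp only [mem_ofPred_eq, h2] at h1
    exact h1
  -- the segment
  obtain ⟨S1, hS1⟩ : ∃ S1 : Set (ℂ × ℂ), S1 = (fun s : ℝ => ((τ0 - s * I, (g0 : ℂ)) : ℂ × ℂ)) ''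
      Icc 0 s0 := ⟨_, rfl⟩
  have hS1c : IsCompact S1 := by
    rw [hS1]
    exact isCompact_Icc.image (by fun_prop)
  have hS1O : S1 ⊆ O := by
    rw [hS1, hO]
    rintro _ ⟨s, hs, rfl⟩
    rw [hτ0]
    exact seg_OB hg ha hc0 hρ hs.1 (hs.2.trans_lt hs0k)
  have hS1x : Convex ℝ S1 := by
    rw [hS1]
    rintro _ ⟨s, hs, rfl⟩ _ ⟨t, ht, rfl⟩ a b ha0 hb0 hab
    refine ⟨a * s + b * t, ⟨?_, ?_⟩, ?_⟩
    · have e1 := mul_nonneg ha0 hs.1
      have e2 := mul_nonneg hb0 ht.1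
      linarith
    · have e1 := mul_le_mul_of_nonneg_left hs.2 ha0
      have e2 := mul_le_mul_of_nonneg_left ht.2 hb0
      have e3 : a * s0 + b * s0 = s0 := by rw [← add_mul, hab, one_mul]
      linarith
    · have hab' : (a : ℂ) + b = 1 := by exact_mod_cast hab
      refine Prod.ext ?_ ?_
      · show τ0 - ((a * s + b * t : ℝ) : ℂ) * I = a • (τ0 - s * I) + b • (τ0 - t * I)
        rw [real_smul, real_smul]
        push_cast
        linear_combination (-τ0) * hab'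
      · show (g0 : ℂ) = a • (g0 : ℂ) + b • (g0 : ℂ)
        rw [real_smul, real_smul]
        linear_combination (-(g0 : ℂ)) * hab'
  obtain ⟨ρ1, hρ1, hρ1O⟩ := hS1c.exists_cthickening_subset_open hOo hS1O
  have hKc : IsCompact (cthickening ρ1 S1) := hS1c.cthickening
  have hmS1 : ∀ s ∈ Icc (0:ℝ) s0, ((τ0 - s * I, (g0 : ℂ)) : ℂ × ℂ) ∈ S1 := by
    intro s hs
    rw [hS1]
    exact ⟨s, hs, rfl⟩
  -- bounds for `Λ`
  have hcΛ : ContinuousOn Λ (cthickening ρ1 S1) :=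
    hS.an.continuousOn.mono fun q hq => hOS q (hρ1O hq)
  have hne : (cthickening ρ1 S1).Nonempty :=
    ⟨_, self_subset_cthickening S1 (hmS1 0 ⟨le_rfl, hs0p.le⟩)⟩
  obtain ⟨B₀, hB₀⟩ := hKc.exists_bound_of_continuousOn hcΛ
  obtain ⟨z, hz, hzm⟩ := hKc.exists_isMaxOn hne (continuous_im.comp_continuousOn hcΛ)
  have hz0 : (Λ z).im < 0 := hS.im z (hOS z (hρ1O hz))
  obtain ⟨κ₀, hκd⟩ : ∃ κ₀ : ℝ, κ₀ = -(Λ z).im / 2 := ⟨_, rfl⟩
  have hκ₀ : 0 < κ₀ := by rw [hκd]; linarith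
  have hB0 : 0 ≤ B₀ := (norm_nonneg _).trans (hB₀ z hz)
  -- the lower end
  have hlow : ((τ0 - s0 * I, (g0 : ℂ)) : ℂ × ℂ) ∈ {q | q ∈ O ∧ (q.1 / q.2).im < y0 - k / 2 ∧
      q ∈ DI v U c V} := by
    refine ⟨hS1O (hmS1 s0 ⟨hs0p.le, le_rfl⟩), ?_, ?_⟩
    · show ((τ0 - s0 * I) / (g0 : ℂ)).im < y0 - k / 2
      rw [div_ofReal_im, div_lt_iff₀ hg]
      simp only [sub_im, mul_im, ofReal_re, I_im, mul_one, ofReal_im, I_re, mul_zero, add_zero]
      rw [hτim, hs0, sub_mul, hy0g]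
      nlinarith [mul_pos hk hg]
    · show (τ0 - s0 * I).im < -vI v U c V (g0 : ℂ)
      rw [← hv0]
      simp only [sub_im, mul_im, ofReal_re, I_im, mul_one, ofReal_im, I_re, mul_zero, add_zero]
      rw [hτim]
      linarith
  have hlo : IsOpen {q : ℂ × ℂ | q ∈ O ∧ (q.1 / q.2).im < y0 - k / 2 ∧ q ∈ DI v U c V} := by
    have e1 : ContinuousOn (fun q : ℂ × ℂ => (q.1 / q.2).im) O := by
      intro q hq
      rw [hO] at hq
      exact (continuous_im.continuousAt.comp (f := fun q : ℂ × ℂ => q.1 / q.2)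
        (continuousAt_fst.div continuousAt_snd hq.1)).continuousWithinAt
    have e2 : IsOpen (O ∩ (fun q : ℂ × ℂ => (q.1 / q.2).im) ⁻¹' Iio (y0 - k / 2)) :=
      e1.isOpen_inter_preimage hOo isOpen_Iio
    have e3 := e2.inter (DI_open hB.nv hB.R_pos HW)
    convert e3 using 1
    ext q
    simp only [mem_ofPred_eq, mem_inter_iff, mem_preimage, mem_Iio]
    tauto
  obtain ⟨ρ3, hρ3, hρ3s⟩ := nhds_basis_closedBall.mem_iff.1 (hlo.mem_nhds hlow)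
  obtain ⟨ρ2, hρ2, hρ21, hρ23⟩ : ∃ ρ2 : ℝ, 0 < ρ2 ∧ ρ2 ≤ ρ1 / 2 ∧ ρ2 ≤ ρ3 / 2 :=
    ⟨min (ρ1 / 2) (ρ3 / 2), lt_min (by positivity) (by positivity), min_le_left _ _,
      min_le_right _ _⟩
  have hV1 : ∀ᶠ n in (U : Filter ℕ), V n * (B₀ + κ₀ + |v0| + ρ2 + s0 + 1) < h :=
    lim_lt HW.V_lim _ hB.h_pos
  have hD := mem_DKU hB HW (isCompact_closedBall ((τ0 - s0 * I, (g0 : ℂ)) : ℂ × ℂ) ρ3)
    (fun q hq => (hρ3s hq).2.2)
  -- regularity
  have hreg : ∀ᶠ n in (U : Filter ℕ), ∀ q ∈ ball ((τ0, (g0 : ℂ)) : ℂ × ℂ) ρ2,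
      RegF v h R G (wp h x c V n q) := by
    filter_upwards [hM κ₀ hκ₀, hV1, hD] with n hn1 hn2 hn3
    obtain ⟨M', hM'an, hM'e, hM'L⟩ := hn1
    have hV := HW.V_pos n
    have hmv : ∀ q ∈ ball ((τ0, (g0 : ℂ)) : ℂ × ℂ) ρ2, ∀ s ∈ Icc (0:ℝ) s0,
        dist ((q.1 - s * I, q.2) : ℂ × ℂ) ((τ0 - s * I, (g0 : ℂ)) : ℂ × ℂ) < ρ2 := by
      intro q hq s _
      rw [mem_ball, Prod.dist_eq, max_lt_iff] at hq
      rw [Prod.dist_eq, max_lt_iff]
      refine ⟨?_, hq.2⟩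
      have e1 := hq.1
      rw [dist_eq_norm] at e1 ⊢
      have e2 : q.1 - s * I - (τ0 - s * I) = q.1 - τ0 := by ring
      simp only [e2]
      exact e1
    have hmT : ∀ q ∈ ball ((τ0, (g0 : ℂ)) : ℂ × ℂ) ρ2, ∀ s ∈ Icc (0:ℝ) s0,
        ((q.1 - s * I, q.2) : ℂ × ℂ) ∈ thickening ρ1 S1 := by
      intro q hq s hs
      rw [mem_thickening_iff]
      exact ⟨_, hmS1 s hs, (hmv q hq s hs).trans (by linarith)⟩
    have hTO : ∀ q ∈ thickening ρ1 S1, q ∈ O :=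
      fun q hq => hρ1O (thickening_subset_cthickening _ _ hq)
    apply Pool.Agent.MP_ae5b4e_an_MT.regF_win hB HW x n (B := thickening ρ1 S1)
      (B' := ball ((τ0, (g0 : ℂ)) : ℂ × ℂ) ρ2)
      (M := fun q => (M' (q.1 / q.2, q.2)).1) isOpen_thickening
      (hS1x.thickening ρ1).isPreconnected isOpen_ball
    · intro q hq
      have e1 := hmT q hq 0 ⟨le_rfl, hs0p.le⟩
      have e2 : ((q.1 - ((0:ℝ):ℂ) * I, q.2) : ℂ × ℂ) = q := by
        ext <;> simp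
      rwa [e2] at e1
    · intro q hq
      have e1 := hTO q hq
      rw [hO] at e1
      have e2 : AnalyticAt ℂ (fun q : ℂ × ℂ => M' (q.1 / q.2, q.2)) q :=
        AnalyticAt.fun_comp (f := fun q : ℂ × ℂ => (q.1 / q.2, q.2)) (g := M') (x := q)
          (hM'an _ e1.2) (Fin_an e1.1)
      exact AnalyticAt.fun_comp (g := fun u : ℂ × ℂ => u.1) (f := fun q : ℂ × ℂ =>
        M' (q.1 / q.2, q.2)) (x := q) analyticAt_fst e2
    · intro q hq
      have e1 := hTO q hq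
      have e1' := e1
      rw [hO] at e1'
      have hq' := thickening_subset_cthickening _ _ hq
      have e2 := hM'e _ e1'.2
      have e3 : (zf Λ (q.1 / q.2, q.2)).1 = Λ q := by
        show Λ (q.1 / q.2 * q.2, q.2) = Λ q
        rw [div_mul_cancel₀ _ e1'.1]
      have e4 : ‖(M' (q.1 / q.2, q.2)).1 - Λ q‖ ≤ κ₀ := by
        rw [← e3, ← Prod.fst_sub]
        exact (norm_fst_le _).trans e2
      have h2 : (Λ q).im ≤ (Λ z).im := hzm hq'
      have h3 := (abs_im_le_norm _).trans e4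
      rw [sub_im, abs_le] at h3
      have h4 : (M' (q.1 / q.2, q.2)).1.im ≤ -κ₀ := by rw [hκd] at h3 ⊢; linarith [h3.2]
      have h5 : ‖(M' (q.1 / q.2, q.2)).1‖ ≤ B₀ + κ₀ := by
        have := norm_le_norm_add_norm_sub' (M' (q.1 / q.2, q.2)).1 (Λ q)
        linarith [hB₀ q hq']
      have h6 := (abs_le.1 ((abs_im_le_norm (M' (q.1 / q.2, q.2)).1).trans h5)).1
      have h7 : (pt h x V n (M' (q.1 / q.2, q.2)).1).im =
        h + V n * (M' (q.1 / q.2, q.2)).1.im := pt_im h x V n _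
      have h8 := abs_nonneg v0
      have h9 : V n * (B₀ + κ₀) < h := by
        refine lt_of_le_of_lt ?_ hn2
        exact mul_le_mul_of_nonneg_left (by linarith) hV.le
      have h10 : V n * (-(B₀ + κ₀)) ≤ V n * (M' (q.1 / q.2, q.2)).1.im :=
        mul_le_mul_of_nonneg_left h6 hV.le
      have h11 : V n * (M' (q.1 / q.2, q.2)).1.im < 0 := mul_neg_of_pos_of_neg hV (by linarith)
      have h12 := hB.h_pos
      constructor
      · show -h < (pt h x V n (M' (q.1 / q.2, q.2)).1).im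
        rw [h7]
        linarith
      · show (pt h x V n (M' (q.1 / q.2, q.2)).1).im < h
        rw [h7]
        linarith
    · intro q hq _
      refine ⟨s0, hs0p.le, fun s' hs' => ⟨hmT q hq s' hs', ?_⟩, ?_, ?_⟩
      · have e1 : dist q.1 τ0 < ρ2 := by
          rw [mem_ball, Prod.dist_eq, max_lt_iff] at hq
          exact hq.1
        rw [dist_eq_norm] at e1
        have e2 := (abs_im_le_norm _).trans e1.le
        rw [sub_im, hτim, abs_le] at e2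
        have e3 := le_abs_self v0
        have e4 : V n * (-(|v0| + ρ2 + s0)) ≤ V n * (q.1.im - s') :=
          mul_le_mul_of_nonneg_left (by linarith [e2.1, hs'.2]) hV.le
        have e5 : V n * (|v0| + ρ2 + s0) ≤ V n * (B₀ + κ₀ + |v0| + ρ2 + s0 + 1) :=
          mul_le_mul_of_nonneg_left (by linarith) hV.le
        linarith
      · refine hn3 x _ ?_
        rw [mem_closedBall]
        exact ((hmv q hq s0 ⟨hs0p.le, le_rfl⟩).trans (by linarith)).le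
      · have e1 : ((q.1 - s0 * I, q.2) : ℂ × ℂ) ∈
            {q : ℂ × ℂ | q ∈ O ∧ (q.1 / q.2).im < y0 - k / 2 ∧ q ∈ DI v U c V} := by
          apply hρ3s
          rw [mem_closedBall]
          exact ((hmv q hq s0 ⟨hs0p.le, le_rfl⟩).trans (by linarith)).le
        filter_upwards [hlo.mem_nhds e1] with w hw
        obtain ⟨w1, w2, -⟩ := hw
        rw [hO] at w1
        have e2 := hM'L _ w1.2 w2
        show (M' (w.1 / w.2, w.2)).1 = Ln L h x c V n w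
        rw [e2]
        show Ln L h x c V n (w.1 / w.2 * w.2, w.2) = Ln L h x c V n w
        rw [div_mul_cancel₀ _ w1.1]
  -- the real points
  obtain ⟨g, hgl, hgv⟩ := vI_real hB.nv hB.R_pos HW g0
  rw [← hv0] at hgv
  have f1 : ∀ᶠ n in (U : Filter ℕ), |g n - g0| < min ρ2 (g0 / 2) := by
    have := (tendsto_iff_dist_tendsto_zero.1 hgl).eventually
      (gt_mem_nhds (show (0:ℝ) < min ρ2 (g0 / 2) from lt_min hρ2 (by positivity)))
    filter_upwards [this] with n hn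
    rwa [Real.dist_eq] at hn
  have f2 : ∀ᶠ n in (U : Filter ℕ), |vn v c V n (g n : ℂ) - v0| < ρ2 / 2 := by
    have := (tendsto_iff_dist_tendsto_zero.1 hgv).eventually
      (gt_mem_nhds (show (0:ℝ) < ρ2 / 2 by positivity))
    filter_upwards [this] with n hn
    rwa [Real.dist_eq] at hn
  have f3 : ∀ᶠ n in (U : Filter ℕ), c n / V n * (2 * g0) < ρ2 / 2 :=
    lim_lt (cV_lim HW) _ (by positivity)
  have f4 : ∀ᶠ n in (U : Filter ℕ), c n * (2 * g0) < R := lim_lt HW.c_lim _ hB.R_pos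
  obtain ⟨n, n0, n1, n2, n3, n4⟩ := (hreg.and (f1.and (f2.and (f3.and f4)))).exists
  have hV := HW.V_pos n
  have hc := HW.c_pos n
  obtain ⟨n11, n12⟩ := lt_min_iff.1 n1
  have hg1 : 0 < g n := by
    have := (abs_lt.1 n12).1
    linarith
  have hg2 : g n < 2 * g0 := by
    have := (abs_lt.1 n12).2
    linarith
  have hcg : c n * g n < c n * (2 * g0) := by gcongr
  refine hB.gpw (c n * g n) (by positivity) (by linarith) (x n + V n * τ0.re) ?_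
  intro x' hx'
  have hVc : (V n : ℂ) ≠ 0 := by exact_mod_cast hV.ne'
  have key := n0 ((⟨(x' - x n) / V n, -vn v c V n (g n : ℂ)⟩ : ℂ), ((g n : ℝ) : ℂ)) ?_
  · have e1 : wp h x c V n ((⟨(x' - x n) / V n, -vn v c V n (g n : ℂ)⟩ : ℂ), ((g n : ℝ) : ℂ)) =
        ((x' : ℂ) + ((h - v ((c n * g n : ℝ) : ℂ) : ℝ) : ℂ) * I, ((c n * g n : ℝ) : ℂ)) := by
      refine Prod.ext ?_ ?_
      · show pt h x V n (⟨(x' - x n) / V n, -vn v c V n (g n : ℂ)⟩ : ℂ) = _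
        have e2 : V n * vn v c V n (g n : ℂ) = v ((c n * g n : ℝ) : ℂ) := by
          unfold vn
          push_cast
          field_simp
        unfold pt
        apply Complex.ext
        · simp
          field_simp
          ring
        · simp
          push_cast at e2
          linarith
      · show (c n : ℂ) * ((g n : ℝ) : ℂ) = _
        push_cast
        ring
    rwa [e1] at key
  · rw [mem_ball, Prod.dist_eq, max_lt_iff]
    constructor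
    · rw [dist_eq_norm]
      refine (norm_le_abs_re_add_abs_im _).trans_lt ?_
      have e1 : |((⟨(x' - x n) / V n, -vn v c V n (g n : ℂ)⟩ : ℂ) - τ0).re| < ρ2 / 2 := by
        rw [sub_re]
        show |(x' - x n) / V n - τ0.re| < ρ2 / 2
        have e2 : (x' - x n) / V n - τ0.re = (x' - (x n + V n * τ0.re)) / V n := by
          field_simp
          ring
        rw [e2, abs_div, abs_of_pos hV]
        refine lt_of_le_of_lt ?_ n3
        rw [div_mul_eq_mul_div]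
        gcongr
        linarith
      have e3 : |((⟨(x' - x n) / V n, -vn v c V n (g n : ℂ)⟩ : ℂ) - τ0).im| < ρ2 / 2 := by
        rw [sub_im, hτim]
        show |-vn v c V n (g n : ℂ) - -v0| < ρ2 / 2
        have e4 : -vn v c V n (g n : ℂ) - -v0 = -(vn v c V n (g n : ℂ) - v0) := by ring
        rw [e4, abs_neg]
        exact n2
      linarith
    · show dist ((g n : ℝ) : ℂ) (g0 : ℂ) < ρ2
      rw [dist_eq_norm, ← ofReal_sub, Complex.norm_real, Real.norm_eq_abs]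
      exact n11

/-- **BLOCK A4 (EXISTENCE): NO LONG REGULAR STRETCH.** `g0` = contact point of the boundary function
`vI`; the label has no analytic continuation to a box about a stretch of length `> 2 C g0` of the
line `Im τ = - vI g0`. -/
theorem no_regular (hB : Base Y h R C0 v G L) (HW : Win v U β C1 c V) (x : ℕ → ℝ)
    {g0 r x1 x2 b p C D rc : ℝ} (hg : 0 < g0) (hr : 0 < r) (hb : 0 < b) (hC0 : 0 ≤ C)
    (hD : 0 ≤ D) (hrc : 0 < rc)
    (hcon : ∀ z : ℂ, ‖z‖ ≤ rc →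
      vI v U c V (g0 + z) ≤ vI v U c V g0 + p * z.re + C * |z.im| + D * ‖z‖ ^ 2)
    (hlen : 2 * C * g0 < x2 - x1) {Λ : ℂ × ℂ → ℂ} {S : Set (ℂ × ℂ)}
    (hS : Slt (DI v U c V) (LI L h U x c V) Λ S)
    (hsub : ∀ q : ℂ × ℂ, q.2 ∈ ball (g0 : ℂ) r → x1 < q.1.re → q.1.re < x2 →
      |q.1.im + vI v U c V g0| < b → q ∈ S) : False := by
  obtain ⟨v0, hv0⟩ : ∃ v0 : ℝ, v0 = vI v U c V g0 := ⟨_, rfl⟩
  obtain ⟨e, he, he4⟩ : ∃ e : ℝ, 0 < e ∧ x2 - x1 = 2 * C * g0 + 4 * e :=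
    ⟨(x2 - x1 - 2 * C * g0) / 4, by linarith, by ring⟩
  obtain ⟨a1, ha1⟩ : ∃ a1 : ℝ, a1 = (x1 + e) / g0 := ⟨_, rfl⟩
  obtain ⟨a2, ha2⟩ : ∃ a2 : ℝ, a2 = (x2 - e) / g0 := ⟨_, rfl⟩
  have ha1g : a1 * g0 = x1 + e := by
    rw [ha1]
    field_simp
  have ha2g : a2 * g0 = x2 - e := by
    rw [ha2]
    field_simp
  have hC : C < (a2 - a1) / 2 := by
    have h1 : C * g0 < (a2 - a1) / 2 * g0 := by
      have h2 : (a2 - a1) / 2 * g0 = (a2 * g0 - a1 * g0) / 2 := by ring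
      rw [h2, ha1g, ha2g]
      linarith
    exact lt_of_mul_lt_mul_right h1 hg.le
  have ha : a1 < a2 := by linarith
  have hls := Pool.Agent.MP_ae5b4e_an_MT.ls_win hB HW x
  obtain ⟨ξ, hξ⟩ := exists_xi hls
  have hEx := lab_ex' hls hξ hS.S_open hS.eq
  have hj : Continuous fun p : ℂ × ℂ => (p.1 * p.2, p.2) := by fun_prop
  have hOL : IsOpen {p : ℂ × ℂ | (p.1 * p.2, p.2) ∈ S ∧ (p.1 * p.2, p.2) ∈ DI v U c V} :=
    (hS.S_open.preimage hj).inter ((DI_open hB.nv hB.R_pos HW).preimage hj)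
  obtain ⟨r0, h0, hr0, hh0, hr0c, hgeo⟩ := geo_lab (v0 := v0) (p := p) (C := C) (D := D)
    (x1 := x1) (x2 := x2) hg ha (by linarith) (by linarith) hb hr hrc
  have hreg : ∀ s ∈ Icc (a1 - e / (2 * g0)) (a2 + e / (2 * g0)),
      ((⟨s, -(v0 / g0)⟩ : ℂ), (g0 : ℂ)) ∈ {p : ℂ × ℂ | (p.1 * p.2, p.2) ∈ S} := by
    intro s hs
    have he2 : e / (2 * g0) * g0 = e / 2 := by field_simp
    have e1 : (a1 - e / (2 * g0)) * g0 ≤ s * g0 := mul_le_mul_of_nonneg_right hs.1 hg.le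
    have e2 : s * g0 ≤ (a2 + e / (2 * g0)) * g0 := mul_le_mul_of_nonneg_right hs.2 hg.le
    rw [sub_mul, ha1g, he2] at e1
    rw [add_mul, ha2g, he2] at e2
    refine hsub _ (mem_ball_self hr) ?_ ?_ ?_
    · rw [re_mul_ofReal]
      show x1 < s * g0
      linarith
    · rw [re_mul_ofReal]
      show s * g0 < x2
      linarith
    · rw [im_mul_ofReal, ← hv0]
      show |-(v0 / g0) * g0 + v0| < b
      have e3 : -(v0 / g0) * g0 + v0 = 0 := by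
        field_simp
        ring
      rw [e3, abs_zero]
      exact hb
  have hlab : ∀ q : ℂ × ℂ, q.2 ∈ closedBall (g0 : ℂ) r0 → a1 ≤ q.1.re → q.1.re ≤ a2 →
      -(v0 / g0) - h0 ≤ q.1.im → q.1.im < TT v0 p C D g0 q.1.re q.2 →
      q ∈ {p : ℂ × ℂ | (p.1 * p.2, p.2) ∈ S ∧ (p.1 * p.2, p.2) ∈ DI v U c V} := by
    intro q h1 h2 h3 h4 h5
    obtain ⟨k1, k2, k3, k4, k5⟩ := hgeo q h1 h2 h3 h4 h5
    refine ⟨hsub _ k1 k2 k3 ?_, ?_⟩
    · rw [← hv0]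
      exact k4
    · show (q.1 * q.2).im < -vI v U c V q.2
      have e1 := hcon (q.2 - g0) (by
        rw [mem_closedBall, dist_eq_norm] at h1
        exact h1.trans hr0c)
      rw [add_sub_cancel, ← hv0] at e1
      linarith
  obtain ⟨ρ, k, c0, hρ, hk, hc0, -, -, hΩ, hM⟩ := exists_cont (vf_win hB HW x hξ)
    (fw_slit hB HW x hS) hOL hEx hg hC0 hD hC hr0 hh0 (show 0 < e / (2 * g0) by positivity)
    hreg hlab
  rw [hv0] at hΩ hM
  exact contra hB HW x hg ha hk hc0 hρ hS hΩ hM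

end Pool.Agent.MP_ae5b4e_an_A4
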