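import Pool.Agent.Lib.MP_ae5b4e_an_A4.Modes

/-!
# MP_ae5b4e_an, POR (iii), STEP A, block A4 (existence): the tops at the two ends

`TT v0 p C D g0 s γ` = height (in the time variable `θ = τ / γ`) of the label domain over
`Re θ = s`, when the height `v` satisfies `v γ ≤ v0 + p Re z + C |Im z| + D |z|²`, `z = γ - g0`.
-/

noncomputable section

namespace Pool.Agent.MP_ae5b4e_an_A4

open Complex Set Filter Topology Metric

/-- the top over `Re θ = s` -/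
def TT (v0 p C D g0 s : ℝ) (γ : ℂ) : ℝ :=
  (-(v0 + p * (γ - g0).re + C * |(γ - g0).im| + D * ‖γ - g0‖ ^ 2) - s * γ.im) / γ.re

theorem re_pos_of {g0 : ℝ} (_hg : 0 < g0) {γ : ℂ} (hγ : ‖γ - g0‖ ≤ g0 / 2) :
    g0 / 2 ≤ γ.re := by
  have h1 := (abs_re_le_norm (γ - g0)).trans hγ
  rw [sub_re, ofReal_re, abs_le] at h1
  linarith [h1.1]

theorem TT_continuousOn {v0 p C D g0 s : ℝ} (hg : 0 < g0) :
    ContinuousOn (TT v0 p C D g0 s) (closedBall (g0 : ℂ) (g0 / 2)) := by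
  unfold TT
  refine ContinuousOn.div ?_ continuous_re.continuousOn ?_
  · exact Continuous.continuousOn (by fun_prop)
  · intro γ hγ
    rw [mem_closedBall, dist_eq_norm] at hγ
    have := re_pos_of hg hγ
    linarith

theorem TT_self (v0 p C D : ℝ) {g0 : ℝ} (s : ℝ) :
    TT v0 p C D g0 s (g0 : ℂ) = -(v0 / g0) := by
  unfold TT
  simp
  ring

/-- the top is affine in `s` -/
theorem TT_between {v0 p C D g0 a1 a2 s : ℝ} (hg : 0 < g0) {γ : ℂ} (hγ : ‖γ - g0‖ ≤ g0 / 2)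
    (h1 : a1 ≤ s) (h2 : s ≤ a2) :
    min (TT v0 p C D g0 a1 γ) (TT v0 p C D g0 a2 γ) ≤ TT v0 p C D g0 s γ := by
  have hre := re_pos_of hg hγ
  have hre0 : 0 < γ.re := by linarith
  unfold TT
  rcases le_total 0 γ.im with h | h
  · refine (min_le_right _ _).trans ?_
    gcongr
  · refine (min_le_left _ _).trans ?_
    rw [div_le_div_iff_of_pos_right hre0]
    nlinarith

/-- **THE KINK.** -/
theorem kink {v0 p C D g0 a1 a2 : ℝ} (hg : 0 < g0) (hD : 0 ≤ D)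
    (hC : C < (a2 - a1) / 2) {γ : ℂ} (hγ : ‖γ - g0‖ ≤ g0 / 2) :
    -RT (v0 / g0) (p / g0 - v0 / g0 ^ 2) ((a1 + a2) / 2 / g0) (((a2 - a1) / 2 - C) / (2 * g0))
      (2 * (D + |p / g0 - v0 / g0 ^ 2| + |(a1 + a2) / 2 / g0|) / g0) (g0 : ℂ) γ ≤
      max (TT v0 p C D g0 a1 γ) (TT v0 p C D g0 a2 γ) := by
  have hre := re_pos_of hg hγ
  have hre0 : 0 < γ.re := by linarith
  obtain ⟨x, hx⟩ : ∃ x, x = (γ - g0).re := ⟨_, rfl⟩
  obtain ⟨y, hy⟩ : ∃ y, y = γ.im := ⟨_, rfl⟩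
  have hy' : (γ - g0).im = y := by
    rw [hy]
    simp
  have hγre : γ.re = g0 + x := by
    rw [hx]
    simp
  obtain ⟨n, hn⟩ : ∃ n, n = ‖γ - g0‖ := ⟨_, rfl⟩
  have hxn : |x| ≤ n := by
    rw [hx, hn]
    exact abs_re_le_norm _
  have hyn : |y| ≤ n := by
    rw [← hy', hn]
    exact abs_im_le_norm _
  have hn0 : 0 ≤ n := by
    rw [hn]
    exact norm_nonneg _
  have hng : n ≤ g0 / 2 := by
    rw [hn]
    exact hγ
  -- lower bound of the maximum
  have h1 : (-(v0 + p * x + C * |y| + D * n ^ 2) - (a1 + a2) / 2 * y + (a2 - a1) / 2 * |y|) /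
      γ.re ≤ max (TT v0 p C D g0 a1 γ) (TT v0 p C D g0 a2 γ) := by
    unfold TT
    rw [hy', ← hx, ← hn, ← hy]
    rcases le_total 0 y with h | h
    · refine le_trans (le_of_eq ?_) (le_max_left _ _)
      rw [abs_of_nonneg h]
      congr 1
      ring
    · refine le_trans (le_of_eq ?_) (le_max_right _ _)
      rw [abs_of_nonpos h]
      congr 1
      ring
  refine le_trans ?_ h1
  rw [le_div_iff₀ hre0]
  unfold RT
  rw [hy', ← hx, ← hn, hγre]
  obtain ⟨A, hA⟩ : ∃ A, A = p / g0 - v0 / g0 ^ 2 := ⟨_, rfl⟩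
  obtain ⟨E, hE⟩ : ∃ E, E = (a1 + a2) / 2 / g0 := ⟨_, rfl⟩
  obtain ⟨m, hm⟩ : ∃ m, m = (a2 - a1) / 2 - C := ⟨_, rfl⟩
  have hm0 : 0 < m := by
    rw [hm]
    linarith
  obtain ⟨B, hB⟩ : ∃ B, B = 2 * (D + |A| + |E|) / g0 := ⟨_, rfl⟩
  rw [← hA, ← hE, ← hm, ← hB]
  have e1 : v0 = g0 * (v0 / g0) := by field_simp
  have e2 : p = A * g0 + v0 / g0 := by
    rw [hA]
    field_simp
    ring
  have e3 : (a1 + a2) / 2 = E * g0 := by
    rw [hE]
    field_simp
  have e4 : (a2 - a1) / 2 = m + C := by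
    rw [hm]
    ring
  have hBg : B * g0 = 2 * (D + |A| + |E|) := by
    rw [hB]
    field_simp
  have hB0 : 0 ≤ B := by
    rw [hB]
    positivity
  -- the estimates
  have f1 : 0 ≤ m * |y| * (1 / 2 - x / (2 * g0)) := by
    have : x / (2 * g0) ≤ 1 / 4 := by
      rw [div_le_iff₀ (by positivity)]
      have := le_abs_self x
      linarith
    have h3 : 0 ≤ 1 / 2 - x / (2 * g0) := by linarith
    positivity
  have f2 : -(|A| * n ^ 2) ≤ A * x ^ 2 := by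
    have h3 : x ^ 2 ≤ n ^ 2 := by
      rw [← sq_abs x]
      gcongr
    have h4 := neg_abs_le A
    have h5 := abs_nonneg A
    nlinarith [sq_nonneg x]
  have f3 : -(|E| * n ^ 2) ≤ E * (y * x) := by
    have h3 : |E * (y * x)| ≤ |E| * n ^ 2 := by
      rw [abs_mul, abs_mul]
      have h4 : |y| * |x| ≤ n * n := mul_le_mul hyn hxn (abs_nonneg _) hn0
      calc |E| * (|y| * |x|) ≤ |E| * (n * n) := by gcongr
        _ = |E| * n ^ 2 := by ring
    have := neg_abs_le (E * (y * x))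
    linarith
  have f4 : (D + |A| + |E|) * n ^ 2 ≤ B * n ^ 2 * (g0 + x) := by
    have h3 : g0 / 2 ≤ g0 + x := by
      have := neg_abs_le x
      linarith
    calc (D + |A| + |E|) * n ^ 2 = B * g0 / 2 * n ^ 2 := by rw [hBg]; ring
      _ = B * n ^ 2 * (g0 / 2) := by ring
      _ ≤ B * n ^ 2 * (g0 + x) := by gcongr
  have f5 : m / (2 * g0) * |y| * (g0 + x) = m * |y| - m * |y| * (1 / 2 - x / (2 * g0)) := by
    field_simp
    ring
  obtain ⟨w, hw⟩ : ∃ w, w = v0 / g0 := ⟨_, rfl⟩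
  rw [← hw] at e1 e2 ⊢
  rw [e3, e4]
  have e5 : -(w + A * x + E * y - m / (2 * g0) * |y| + B * n ^ 2) * (g0 + x) =
      -(w * (g0 + x)) - A * x * g0 - A * x ^ 2 - E * y * g0 - E * (y * x) +
        m / (2 * g0) * |y| * (g0 + x) - B * n ^ 2 * (g0 + x) := by
    ring
  rw [e5, f5, e1, e2]
  nlinarith

end Pool.Agent.MP_ae5b4e_an_A4
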