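import Pool.Agent.Lib.MP_ae5b4e_an_MERO.Fourier
import Pool.Agent.Lib.MP_ae5b4e_an_PB.Mean
import Pool.Agent.Lib.SCV.Osgood

/-!
# MP_ae5b4e_an, POR (iii), STEP A, block A4 (existence): the modes

`F (ζ, γ)` is periodic of period `1` in `ζ`, small, and defined for `N y1 < Im ζ < N T γ` with a top
`T` which has a `|Im γ|` kink at `g0`: the two sides of a long stretch of the line.  Then all modes
`k ≥ 1` are exponentially smaller than what the height at `g0` allows, so `F` extends above `-R0`.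
-/

noncomputable section

namespace Pool.Agent.MP_ae5b4e_an_A4

open Complex Set Filter Topology Metric
open Pool.Agent.MP_ae5b4e_an_MERO (fo St)

/-- the strips `N y1 < Im ζ < N T γ` over the disc -/
def SN (N y1 : ℝ) (T : ℂ → ℝ) (g0 : ℂ) (r : ℝ) : Set (ℂ × ℂ) :=
  {p | p.2 ∈ ball g0 r ∧ N * y1 < p.1.im ∧ p.1.im < N * T p.2}

/-- the rate `R0 + α Re z + β Im z - μ |Im z| + B |z|²`, `z = γ - g0` -/
def RT (R0 α β μ B : ℝ) (g0 : ℂ) (γ : ℂ) : ℝ :=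
  R0 + α * (γ - g0).re + β * (γ - g0).im - μ * |(γ - g0).im| + B * ‖γ - g0‖ ^ 2

/-- the `m`-th Fourier coefficient at height `y` -/
def am (F : ℂ × ℂ → ℂ) (y : ℝ) (m : ℤ) (γ : ℂ) : ℂ := fo (fun ζ => F (ζ, γ)) y m

theorem norm_e (m : ℤ) (t : ℂ) :
    ‖exp (2 * Real.pi * I * m * t)‖ = Real.exp (-(2 * Real.pi * m * t.im)) := by
  rw [Complex.norm_exp]
  congr 1
  simp

theorem isOpen_SN {N y1 : ℝ} {T : ℂ → ℝ} {g0 : ℂ} {r : ℝ} (hT : ContinuousOn T (ball g0 r)) :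
    IsOpen (SN N y1 T g0 r) := by
  have h1 : IsOpen {p : ℂ × ℂ | p.2 ∈ ball g0 r} := isOpen_ball.preimage continuous_snd
  have h2 : IsOpen {p : ℂ × ℂ | N * y1 < p.1.im} :=
    isOpen_lt continuous_const (continuous_im.comp continuous_fst)
  have h3 : ContinuousOn (fun p : ℂ × ℂ => N * T p.2 - p.1.im) {p : ℂ × ℂ | p.2 ∈ ball g0 r} := by
    refine ContinuousOn.sub (continuousOn_const.mul ?_)
      (continuous_im.comp continuous_fst).continuousOn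
    exact hT.comp continuous_snd.continuousOn fun p hp => hp
  have h4 := h3.isOpen_inter_preimage h1 (isOpen_Ioi (a := (0:ℝ)))
  have e : SN N y1 T g0 r = {p : ℂ × ℂ | N * y1 < p.1.im} ∩
      ({p : ℂ × ℂ | p.2 ∈ ball g0 r} ∩ (fun p : ℂ × ℂ => N * T p.2 - p.1.im) ⁻¹' Ioi 0) := by
    ext p
    simp only [SN, mem_ofPred_eq, mem_inter_iff, mem_preimage, mem_Ioi, sub_pos]
    tauto
  rw [e]
  exact h2.inter h4

section

variable {N y1 κ : ℝ} {T : ℂ → ℝ} {g0 : ℂ} {r : ℝ} {F : ℂ × ℂ → ℂ}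

/-- hypotheses on `F` -/
structure Per (N y1 κ : ℝ) (T : ℂ → ℝ) (g0 : ℂ) (r : ℝ) (F : ℂ × ℂ → ℂ) : Prop where
  an : AnalyticOnNhd ℂ F (SN N y1 T g0 r)
  per : ∀ p ∈ SN N y1 T g0 r, F (p.1 + 1, p.2) = F p
  bd : ∀ p ∈ SN N y1 T g0 r, ‖F p‖ ≤ κ

/-- the slice -/
theorem Per.slice (hF : Per N y1 κ T g0 r F) {γ : ℂ} (hγ : γ ∈ ball g0 r) :
    DifferentiableOn ℂ (fun ζ => F (ζ, γ)) (St (N * y1) (N * T γ)) ∧
      ∀ t ∈ St (N * y1) (N * T γ), F (t + 1, γ) = F (t, γ) := by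
  constructor
  · intro t ht
    have h1 : (t, γ) ∈ SN N y1 T g0 r := ⟨hγ, ht.1, ht.2⟩
    have h2 : AnalyticAt ℂ (fun ζ : ℂ => F (ζ, γ)) t :=
      AnalyticAt.comp (g := F) (f := fun ζ : ℂ => (ζ, γ)) (hF.an _ h1)
        (analyticAt_id.prod analyticAt_const)
    exact h2.differentiableAt.differentiableWithinAt
  · intro t ht
    exact hF.per (t, γ) ⟨hγ, ht.1, ht.2⟩

theorem Per.indep (hF : Per N y1 κ T g0 r F) {γ : ℂ} (hγ : γ ∈ ball g0 r) {y y' : ℝ}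
    (hy : y ∈ Ioo (N * y1) (N * T γ)) (hy' : y' ∈ Ioo (N * y1) (N * T γ)) (m : ℤ) :
    am F y m γ = am F y' m γ :=
  Pool.Agent.MP_ae5b4e_an_MERO.fo_indep (hF.slice hγ).1 (hF.slice hγ).2 hy hy' m

/-- bound by the values at any height, also at the top -/
theorem Per.le (hF : Per N y1 κ T g0 r F) {γ : ℂ} (hγ : γ ∈ ball g0 r) {y y' : ℝ}
    (hy : y ∈ Ioo (N * y1) (N * T γ)) (hy' : y' ∈ Icc (N * y1) (N * T γ)) (m : ℤ) :
    ‖am F y m γ‖ ≤ κ * Real.exp (2 * Real.pi * m * y') := by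
  have hcl : IsClosed {s : ℝ | ‖am F y m γ‖ ≤ κ * Real.exp (2 * Real.pi * m * s)} :=
    isClosed_le continuous_const (by fun_prop)
  have hsub : Ioo (N * y1) (N * T γ) ⊆
      {s : ℝ | ‖am F y m γ‖ ≤ κ * Real.exp (2 * Real.pi * m * s)} := by
    intro s hs
    show ‖am F y m γ‖ ≤ _
    rw [hF.indep hγ hy hs m]
    refine Pool.Agent.MP_ae5b4e_an_MERO.norm_fo_le (fun t ht => ?_) m
    refine hF.bd (t, γ) ⟨hγ, ?_, ?_⟩
    · show N * y1 < t.im
      rw [ht]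
      exact hs.1
    · show t.im < N * T γ
      rw [ht]
      exact hs.2
  have h1 := closure_minimal hsub hcl
  rw [closure_Ioo (ne_of_lt (hy.1.trans hy.2))] at h1
  exact h1 hy'

/-- the coefficients are holomorphic -/
theorem Per.diff (hF : Per N y1 κ T g0 r F) {s : ℝ} (hs : s ≤ r) {y : ℝ}
    (hy : ∀ γ ∈ ball g0 s, y ∈ Ioo (N * y1) (N * T γ)) (m : ℤ) :
    DifferentiableOn ℂ (am F y m) (ball g0 s) := by
  have h1 := Pool.Agent.MP_ae5b4e_an_PB.diff_int (U := ball g0 s) isOpen_ball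
    (g := fun p : ℂ × ℂ => F (p.1 + y * I, p.2) *
      exp (-(2 * Real.pi * I * m * (p.1 + y * I)))) ?_
  · exact h1
  · intro x _ ρ hρ
    have hρ2 := hy ρ hρ
    have h2 : ((x:ℂ) + y * I, ρ) ∈ SN N y1 T g0 r := by
      refine ⟨ball_subset_ball hs hρ, ?_, ?_⟩
      · simpa using hρ2.1
      · simpa using hρ2.2
    have h3 : AnalyticAt ℂ (fun p : ℂ × ℂ => (p.1 + y * I, p.2)) ((x:ℂ), ρ) :=
      (analyticAt_fst.add analyticAt_const).prod analyticAt_snd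
    have h4 : AnalyticAt ℂ (fun p : ℂ × ℂ => F (p.1 + y * I, p.2)) ((x:ℂ), ρ) :=
      AnalyticAt.comp (g := F) (f := fun p : ℂ × ℂ => (p.1 + y * I, p.2)) (hF.an _ h2) h3
    refine h4.mul ?_
    have h5 : AnalyticAt ℂ (fun p : ℂ × ℂ => -(2 * Real.pi * I * m * (p.1 + y * I)))
        ((x:ℂ), ρ) := by
      exact ((analyticAt_const.mul (analyticAt_fst.add analyticAt_const))).neg
    exact h5.cexp

end

end Pool.Agent.MP_ae5b4e_an_A4
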